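import Pool.Agent.H940R3.Fek.Consts

set_option autoImplicit false

namespace Pool.Agent.H940R3.Fek

open Polynomial Metric Filter Topology Asymptotics Bornology

theorem bw {P q : ℂ[X]} (hD : 0 < P.natDegree) {n : ℕ} (hq : q.natDegree ≤ n) {A : ℝ}
    (hA : 0 < A) (hle : ∀ z, ‖P.eval z‖ ≤ 1 → ‖q.eval z‖ ≤ A) (z : ℂ) :
    ‖q.eval z‖ ^ P.natDegree ≤ A ^ P.natDegree * max 1 ‖P.eval z‖ ^ n := by
  set D := P.natDegree with hDdef
  by_cases hz : ‖P.eval z‖ ≤ 1
  · have h1 := hle z hz
    have h2 : (1 : ℝ) ≤ max 1 ‖P.eval z‖ ^ n := one_le_pow₀ (le_max_left _ _)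
    calc ‖q.eval z‖ ^ D ≤ A ^ D := by gcongr
      _ = A ^ D * 1 := by ring
      _ ≤ _ := by gcongr
  push Not at hz
  have hmax : max 1 ‖P.eval z‖ = ‖P.eval z‖ := max_eq_right hz.le
  rw [hmax]
  have claim : ∀ k : ℕ, ‖q.eval z‖ ^ (D * k) ≤ A ^ (D * k) * ‖P.eval z‖ ^ (n * k + 1) := by
    intro k
    set num : ℂ[X] := q ^ (D * k) with hnum
    set den : ℂ[X] := P ^ (n * k + 1) with hden
    have hdeg : num.degree < den.degree := by
      apply degree_lt_degree
      rw [hnum, hden, natDegree_pow, natDegree_pow, ← hDdef]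
      calc D * k * q.natDegree ≤ D * k * n := Nat.mul_le_mul_left _ hq
        _ < (n * k + 1) * D := by nlinarith
    have hlo := isLittleO_cobounded_of_degree_lt hdeg
    have hev : ∀ᶠ w in cobounded ℂ, ‖num.eval w‖ ≤ A ^ (D * k) * ‖den.eval w‖ :=
      hlo.def (by positivity)
    have hbd : IsBounded {w : ℂ | ¬ (‖num.eval w‖ ≤ A ^ (D * k) * ‖den.eval w‖)} := by
      rw [isBounded_def]
      filter_upwards [hev] with w hw
      simpa using hw
    obtain ⟨R0, hR0⟩ := hbd.subset_ball (0 : ℂ)
    set R := max R0 (‖z‖ + 1) with hR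
    set U : Set ℂ := {w | 1 < ‖P.eval w‖} ∩ ball 0 R with hU
    have hUo : IsOpen U :=
      (isOpen_lt continuous_const (Polynomial.continuous P).norm).inter isOpen_ball
    have hcl : ∀ w ∈ closure U, 1 ≤ ‖P.eval w‖ := by
      intro w hw
      have h1 : closure U ⊆ {w | 1 ≤ ‖P.eval w‖} := by
        apply closure_minimal
        · intro y hy
          have : 1 < ‖P.eval y‖ := hy.1
          exact this.le
        · exact isClosed_le continuous_const (Polynomial.continuous P).norm
      exact h1 hw
    have hdne : ∀ w ∈ closure U, den.eval w ≠ 0 := by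
      intro w hw
      rw [hden, eval_pow]
      apply pow_ne_zero
      intro h0
      have := hcl w hw
      rw [h0, norm_zero] at this
      linarith
    have hdc : DiffContOnCl ℂ (fun w => num.eval w / den.eval w) U := by
      constructor
      · intro w hw
        exact ((Polynomial.differentiable num w).div (Polynomial.differentiable den w)
          (hdne w (subset_closure hw))).differentiableWithinAt
      · exact (Polynomial.continuous num).continuousOn.div (Polynomial.continuous den).continuousOn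
          hdne
    have hzU : z ∈ U := by
      refine ⟨hz, ?_⟩
      rw [mem_ball, dist_zero_right]
      exact lt_of_lt_of_le (by linarith) (le_max_right _ _)
    have hfr : ∀ w ∈ frontier U, ‖num.eval w / den.eval w‖ ≤ A ^ (D * k) := by
      intro w hw
      have hwcl : w ∈ closure U := frontier_subset_closure hw
      have hwU : w ∉ U := by
        rw [hUo.frontier_eq] at hw
        exact hw.2
      have h1 := hcl w hwcl
      have hd0 := hdne w hwcl
      have hdpos : 0 < ‖den.eval w‖ := norm_pos_iff.2 hd0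
      rw [norm_div, div_le_iff₀ hdpos]
      by_cases hw1 : ‖P.eval w‖ ≤ 1
      · have h2 : ‖P.eval w‖ = 1 := le_antisymm hw1 h1
        rw [hden, hnum, eval_pow, eval_pow, norm_pow, norm_pow, h2, one_pow, mul_one]
        have := hle w hw1
        gcongr
      · push Not at hw1
        have h3 : w ∉ ball (0 : ℂ) R := fun h => hwU ⟨hw1, h⟩
        by_contra hcon
        apply h3
        have h4 : w ∈ ball (0 : ℂ) R0 := hR0 hcon
        exact ball_subset_ball (le_max_left _ _) h4
    have hfin := Complex.norm_le_of_forall_mem_frontier_norm_le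
      (isBounded_ball.subset Set.inter_subset_right) hdc hfr (subset_closure hzU)
    have hdpos : 0 < ‖den.eval z‖ := norm_pos_iff.2 (hdne z (subset_closure hzU))
    rw [norm_div, div_le_iff₀ hdpos] at hfin
    rwa [hden, hnum, eval_pow, eval_pow, norm_pow, norm_pow] at hfin
  by_contra hcon
  push Not at hcon
  have hpos : 0 < A ^ D * ‖P.eval z‖ ^ n := by
    have : 0 < ‖P.eval z‖ := by linarith
    positivity
  set ratio : ℝ := ‖q.eval z‖ ^ D / (A ^ D * ‖P.eval z‖ ^ n) with hratio
  have hr1 : 1 < ratio := by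
    rw [hratio, one_lt_div hpos]
    exact hcon
  obtain ⟨k, hk⟩ := ((tendsto_pow_atTop_atTop_of_one_lt hr1).eventually_gt_atTop
    ‖P.eval z‖).exists
  have h1 := claim k
  have h2 : ratio ^ k ≤ ‖P.eval z‖ := by
    rw [hratio, div_pow, div_le_iff₀ (by positivity)]
    calc (‖q.eval z‖ ^ D) ^ k = ‖q.eval z‖ ^ (D * k) := by rw [pow_mul]
      _ ≤ A ^ (D * k) * ‖P.eval z‖ ^ (n * k + 1) := h1
      _ = ‖P.eval z‖ * (A ^ D * ‖P.eval z‖ ^ n) ^ k := by
        rw [mul_pow, ← pow_mul, ← pow_mul]
        ring
  linarith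

end Pool.Agent.H940R3.Fek
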