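import Mathlib

set_option autoImplicit false

namespace Pool.Agent.H940R3.Fek

open Polynomial

theorem two_eq_C : (2 : ℂ[X]) = C 2 := (map_ofNat (C : ℂ →+* ℂ[X]) 2).symm

/-- first block polynomial -/
noncomputable def Q1 (a : ℝ) : ℂ[X] := X + C ((a : ℂ) / 2) * (X - 1) ^ 2

/-- the block polynomials `u^n T_n(1 + a (u-1)^2/(2u))` -/
noncomputable def Q (a : ℝ) : ℕ → ℂ[X]
  | 0 => 1
  | 1 => Q1 a
  | (n + 2) => 2 * Q1 a * Q a (n + 1) - X ^ 2 * Q a n

theorem Q_zero (a : ℝ) : Q a 0 = 1 := rfl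
theorem Q_one (a : ℝ) : Q a 1 = Q1 a := rfl
theorem Q_add_two (a : ℝ) (n : ℕ) :
    Q a (n + 2) = 2 * Q1 a * Q a (n + 1) - X ^ 2 * Q a n := rfl

theorem natDegree_Q1_le (a : ℝ) : (Q1 a).natDegree ≤ 2 := by
  unfold Q1
  compute_degree

theorem coeff_Q1 (a : ℝ) : (Q1 a).coeff 2 = (a : ℂ) / 2 := by
  unfold Q1
  have : (X + C ((a : ℂ) / 2) * (X - 1) ^ 2 : ℂ[X])
      = C ((a : ℂ) / 2) * X ^ 2 + (C (1 - (a : ℂ)) * X + C ((a : ℂ) / 2)) := by
    simp only [C_sub, C_1]
    have h : (C ((a : ℂ)) : ℂ[X]) = 2 * C ((a : ℂ) / 2) := by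
      rw [two_eq_C, ← C_mul]
      congr 1
      ring
    rw [h]
    ring
  rw [this]
  simp [coeff_X, coeff_C, coeff_one]

theorem eval_zero_Q1 (a : ℝ) : (Q1 a).eval 0 = (a : ℂ) / 2 := by
  simp [Q1]

theorem natDegree_Q_le (a : ℝ) : ∀ n : ℕ, (Q a n).natDegree ≤ 2 * n
  | 0 => by simp [Q_zero]
  | 1 => by simpa [Q_one] using natDegree_Q1_le a
  | (n + 2) => by
    rw [Q_add_two]
    refine (natDegree_sub_le _ _).trans (max_le ?_ ?_)
    · refine natDegree_mul_le.trans ?_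
      have h1 : (2 * Q1 a).natDegree ≤ 2 := by
        rw [two_eq_C]
        exact (natDegree_C_mul_le _ _).trans (natDegree_Q1_le a)
      have h2 := natDegree_Q_le a (n + 1)
      omega
    · refine natDegree_mul_le.trans ?_
      have h2 := natDegree_Q_le a n
      simp only [natDegree_pow, natDegree_X]
      omega

theorem coeff_Q (a : ℝ) : ∀ n : ℕ, (Q a (n + 1)).coeff (2 * (n + 1)) = (a : ℂ) ^ (n + 1) / 2
  | 0 => by simpa [Q_one] using coeff_Q1 a
  | (n + 1) => by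
    rw [Q_add_two, coeff_sub]
    have h1 : (2 * Q1 a * Q a (n + 1)).coeff (2 * (n + 1 + 1))
        = (2 * Q1 a).coeff 2 * (Q a (n + 1)).coeff (2 * (n + 1)) := by
      rw [show 2 * (n + 1 + 1) = 2 + 2 * (n + 1) by ring]
      apply coeff_mul_add_eq_of_natDegree_le
      · rw [two_eq_C]
        exact (natDegree_C_mul_le _ _).trans (natDegree_Q1_le a)
      · exact natDegree_Q_le a (n + 1)
    have h2 : (X ^ 2 * Q a n).coeff (2 * (n + 1 + 1)) = 0 := by
      apply coeff_eq_zero_of_natDegree_lt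
      refine lt_of_le_of_lt natDegree_mul_le ?_
      have h3 := natDegree_Q_le a n
      simp only [natDegree_pow, natDegree_X]
      omega
    rw [h1, h2, coeff_Q a n, two_eq_C, coeff_C_mul, coeff_Q1]
    ring

theorem eval_zero_Q (a : ℝ) : ∀ n : ℕ, (Q a (n + 1)).eval 0 = (a : ℂ) ^ (n + 1) / 2
  | 0 => by simpa [Q_one] using eval_zero_Q1 a
  | (n + 1) => by
    rw [Q_add_two]
    simp only [eval_sub, eval_mul, eval_pow, eval_X, eval_zero_Q a n, eval_zero_Q1,
      eval_ofNat]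
    ring

theorem natDegree_Q (a : ℝ) (ha : 1 ≤ a) (n : ℕ) : (Q a (n + 1)).natDegree = 2 * (n + 1) := by
  apply le_antisymm (natDegree_Q_le a _)
  apply le_natDegree_of_ne_zero
  rw [coeff_Q]
  have : (a : ℂ) ≠ 0 := by
    norm_cast
    linarith
  exact div_ne_zero (pow_ne_zero _ this) two_ne_zero

/-- upper bound -/
theorem norm_Q_le (a : ℝ) (ha : 1 ≤ a) (ha2 : a ≤ 2) (v : ℂ) :
    ∀ n : ℕ, ‖(Q a n).eval v‖ ≤ 11 ^ n * max 1 ‖v‖ ^ (2 * n)
  | 0 => by simp [Q_zero]
  | 1 => by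
    rw [Q_one]
    simp only [Q1, eval_add, eval_X, eval_mul, eval_C, eval_pow, eval_sub, eval_one]
    set w := max 1 ‖v‖ with hw
    have h1 : 1 ≤ w := le_max_left _ _
    have h2 : ‖v‖ ≤ w := le_max_right _ _
    have h3 : ‖v - 1‖ ≤ 2 * w := by
      refine (norm_sub_le _ _).trans ?_
      simp only [norm_one]
      linarith
    have h4 : ‖((a : ℂ) / 2)‖ ≤ 1 := by
      rw [norm_div, Complex.norm_real, Real.norm_eq_abs, abs_of_pos (by linarith)]
      simp
      linarith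
    calc ‖v + (a : ℂ) / 2 * (v - 1) ^ 2‖ ≤ ‖v‖ + ‖(a : ℂ) / 2‖ * ‖v - 1‖ ^ 2 := by
          refine (norm_add_le _ _).trans ?_
          rw [norm_mul, norm_pow]
      _ ≤ w + 1 * (2 * w) ^ 2 := by gcongr
      _ ≤ 11 ^ 1 * w ^ (2 * 1) := by
          have : w ≤ w ^ 2 := by nlinarith
          norm_num
          nlinarith
  | (n + 2) => by
    have e1 := norm_Q_le a ha ha2 v 1
    have e2 := norm_Q_le a ha ha2 v (n + 1)
    have e3 := norm_Q_le a ha ha2 v n
    rw [Q_add_two]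
    simp only [eval_sub, eval_mul, eval_pow, eval_X, eval_ofNat]
    rw [Q_one] at e1
    set w := max 1 ‖v‖ with hw
    have h1 : 1 ≤ w := le_max_left _ _
    have h2 : ‖v‖ ≤ w := le_max_right _ _
    have e1' : ‖eval v (Q1 a)‖ ≤ 5 * w ^ 2 := by
      simp only [Q1, eval_add, eval_X, eval_mul, eval_C, eval_pow, eval_sub, eval_one]
      have h3 : ‖v - 1‖ ≤ 2 * w := by
        refine (norm_sub_le _ _).trans ?_
        simp only [norm_one]
        linarith
      have h4 : ‖((a : ℂ) / 2)‖ ≤ 1 := by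
        rw [norm_div, Complex.norm_real, Real.norm_eq_abs, abs_of_pos (by linarith)]
        simp
        linarith
      calc ‖v + (a : ℂ) / 2 * (v - 1) ^ 2‖ ≤ ‖v‖ + ‖(a : ℂ) / 2‖ * ‖v - 1‖ ^ 2 := by
            refine (norm_add_le _ _).trans ?_
            rw [norm_mul, norm_pow]
        _ ≤ w + 1 * (2 * w) ^ 2 := by gcongr
        _ ≤ 5 * w ^ 2 := by nlinarith
    calc ‖2 * eval v (Q1 a) * eval v (Q a (n + 1)) - v ^ 2 * eval v (Q a n)‖
        ≤ 2 * ‖eval v (Q1 a)‖ * ‖eval v (Q a (n + 1))‖ + ‖v‖ ^ 2 * ‖eval v (Q a n)‖ := by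
          refine (norm_sub_le _ _).trans ?_
          simp only [norm_mul, norm_pow, Complex.norm_ofNat]
          exact le_refl _
      _ ≤ 2 * (5 * w ^ 2) * (11 ^ (n + 1) * w ^ (2 * (n + 1)))
            + w ^ 2 * (11 ^ n * w ^ (2 * n)) := by gcongr
      _ = 11 ^ n * w ^ (2 * n) * (110 * w ^ 4 + w ^ 2) := by ring
      _ ≤ 11 ^ n * w ^ (2 * n) * (110 * w ^ 4 + w ^ 4) := by
          have : w ^ 2 ≤ w ^ 4 := pow_le_pow_right₀ h1 (by norm_num)
          gcongr
      _ ≤ 11 ^ n * w ^ (2 * n) * (121 * w ^ 4) := by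
          have : 0 ≤ w ^ 4 := by positivity
          gcongr
          linarith
      _ = 11 ^ (n + 2) * w ^ (2 * (n + 2)) := by ring

/-- the argument of the Chebyshev polynomial -/
noncomputable def sarg (a : ℝ) (v : ℂ) : ℂ := 1 + (a : ℂ) * (v - 1) ^ 2 / (2 * v)

theorem eval_Q (a : ℝ) {v : ℂ} (hv : v ≠ 0) :
    ∀ n : ℕ, (Q a n).eval v = v ^ n * (Chebyshev.T ℂ n).eval (sarg a v)
  | 0 => by simp [Q_zero]
  | 1 => by
    simp only [Q_one, Q1, sarg, Nat.cast_one, Chebyshev.T_one, eval_X, pow_one, eval_add,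
      eval_mul, eval_C, eval_pow, eval_sub, eval_one]
    field_simp
  | (n + 2) => by
    rw [Q_add_two]
    simp only [eval_sub, eval_mul, eval_pow, eval_X, eval_ofNat]
    rw [eval_Q a hv (n + 1), eval_Q a hv n]
    have h1 : (Q1 a).eval v = v * sarg a v := by
      simp only [Q1, sarg, eval_add, eval_mul, eval_C, eval_pow, eval_sub, eval_one, eval_X]
      field_simp
    rw [h1]
    push_cast
    rw [show ((n : ℤ) + 2) = (n : ℤ) + 2 from rfl, Chebyshev.T_add_two]
    simp only [eval_sub, eval_mul, eval_X, eval_ofNat]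
    ring

/-- real numbers: roots of `u^2 - 2 x u + 1` with `|x| < 1` are unimodular. -/
theorem unimod {u : ℂ} {x : ℝ} (hx1 : -1 < x) (hx2 : x < 1) (h : u ^ 2 - 2 * x * u + 1 = 0) :
    ‖u‖ = 1 ∧ u.re = x := by
  have hre := congrArg Complex.re h
  have him := congrArg Complex.im h
  simp [pow_two] at hre him
  have him' : (u.re - x) * u.im = 0 := by linarith
  have key : u.re = x := by
    rcases mul_eq_zero.1 him' with h0 | h0
    · linarith
    · rw [h0] at hre
      nlinarith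
  refine ⟨?_, key⟩
  have h2 : u.re ^ 2 + u.im ^ 2 = 1 := by
    rw [key] at hre ⊢
    nlinarith
  have h3 : ‖u‖ ^ 2 = 1 := by
    rw [← Complex.normSq_eq_norm_sq, Complex.normSq_apply]
    nlinarith
  have h4 : 0 ≤ ‖u‖ := norm_nonneg _
  nlinarith [sq_nonneg (‖u‖ - 1)]

/-- structure of the roots -/
theorem root_struct (a : ℝ) (ha : 1 ≤ a) (M : ℕ) {g : ℂ} (hg : (Q a (M + 1)).eval g = 0) :
    g ≠ 0 ∧ ∃ φ : ℝ, sarg a g = (Real.cos φ : ℂ) ∧ Real.cos ((M + 1 : ℝ) * φ) = 0 ∧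
      Real.sin φ ≠ 0 := by
  have ha0 : (a : ℂ) ≠ 0 := by
    norm_cast
    linarith
  have hg0 : g ≠ 0 := by
    rintro rfl
    rw [eval_zero_Q] at hg
    have : (a : ℂ) ^ (M + 1) / 2 ≠ 0 := div_ne_zero (pow_ne_zero _ ha0) two_ne_zero
    exact this hg
  refine ⟨hg0, ?_⟩
  rw [eval_Q a hg0] at hg
  have hT : (Chebyshev.T ℂ ((M + 1 : ℕ) : ℤ)).eval (sarg a g) = 0 := by
    rcases mul_eq_zero.1 hg with h | h
    · exact absurd h (pow_ne_zero _ hg0)
    · exact h
  obtain ⟨w, hw⟩ := Complex.cos_surjective (sarg a g)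
  rw [← hw, Chebyshev.T_complex_cos] at hT
  obtain ⟨k, hk⟩ := Complex.cos_eq_zero_iff.1 hT
  have hM : ((M : ℝ) + 1) ≠ 0 := by positivity
  set φ : ℝ := (2 * k + 1) * Real.pi / 2 / (M + 1) with hφ
  have hw' : w = (φ : ℂ) := by
    have hM' : ((M : ℂ) + 1) ≠ 0 := by exact_mod_cast hM
    rw [hφ]
    push_cast
    push_cast at hk
    rw [eq_div_iff hM', ← hk]
    ring
  have hc : Real.cos ((M + 1 : ℝ) * φ) = 0 := by
    rw [hφ, mul_div_cancel₀ _ hM]
    rw [Real.cos_eq_zero_iff]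
    exact ⟨k, rfl⟩
  refine ⟨φ, ?_, hc, ?_⟩
  · rw [← hw, hw']
    simp
  · intro hs
    obtain ⟨j, hj⟩ := Real.sin_eq_zero_iff.1 hs
    rw [← hj] at hc
    have h1 : Real.sin ((M + 1 : ℝ) * (j * Real.pi)) = 0 := by
      rw [show (M + 1 : ℝ) * (j * Real.pi) = (((M + 1 : ℕ) : ℤ) * j : ℤ) * Real.pi by
        push_cast
        ring]
      exact Real.sin_int_mul_pi _
    have h2 := Real.sin_sq_add_cos_sq ((M + 1 : ℝ) * (j * Real.pi))
    rw [h1, hc] at h2
    norm_num at h2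

theorem root_norm (a : ℝ) (ha : 1 ≤ a) (M : ℕ) {g : ℂ} (hg : (Q a (M + 1)).eval g = 0) :
    ‖g‖ = 1 := by
  obtain ⟨hg0, φ, h1, _, h3⟩ := root_struct a ha M hg
  have ha0 : (a : ℂ) ≠ 0 := by
    norm_cast
    linarith
  set x : ℝ := 1 - (1 - Real.cos φ) / a with hx
  have hc1 : Real.cos φ < 1 := by
    rcases lt_or_eq_of_le (Real.cos_le_one φ) with h | h
    · exact h
    · exfalso
      have := Real.sin_sq_add_cos_sq φ
      rw [h] at this
      apply h3
      nlinarith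
  have hc2 : -1 < Real.cos φ := by
    rcases lt_or_eq_of_le (Real.neg_one_le_cos φ) with h | h
    · exact h
    · exfalso
      have := Real.sin_sq_add_cos_sq φ
      rw [← h] at this
      apply h3
      nlinarith
  have hx2 : x < 1 := by
    rw [hx]
    have : 0 < (1 - Real.cos φ) / a := by
      apply div_pos <;> linarith
    linarith
  have hx1 : -1 < x := by
    rw [hx]
    have : (1 - Real.cos φ) / a ≤ 1 - Real.cos φ := by
      apply div_le_self <;> linarith
    linarith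
  have key : g ^ 2 - 2 * x * g + 1 = 0 := by
    unfold sarg at h1
    have h5 : (a : ℂ) * (g - 1) ^ 2 = ((Real.cos φ : ℂ) - 1) * (2 * g) := by
      rw [← h1]
      field_simp
      ring
    have h6 : (g - 1) ^ 2 = ((Real.cos φ : ℂ) - 1) / a * (2 * g) := by
      field_simp
      linear_combination h5
    rw [hx]
    generalize Real.cos φ = cc at h6
    push_cast
    linear_combination h6
  exact (unimod hx1 hx2 key).1

theorem norm_Q_root (a : ℝ) (ha : 1 ≤ a) (M : ℕ) {g : ℂ} (hg : (Q a (M + 1)).eval g = 0)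
    (n : ℕ) : ‖(Q a n).eval g‖ ≤ 1 := by
  have hn := root_norm a ha M hg
  obtain ⟨hg0, φ, h1, _, h3⟩ := root_struct a ha M hg
  rw [eval_Q a hg0, norm_mul, norm_pow, hn, one_pow, one_mul, h1, Complex.ofReal_cos,
    Chebyshev.T_complex_cos]
  rw [show ((n : ℤ) : ℂ) * (φ : ℂ) = ((n * φ : ℝ) : ℂ) by push_cast; ring,
    ← Complex.ofReal_cos, Complex.norm_real]
  exact Real.abs_cos_le_one _

theorem deriv_Q_root (a : ℝ) (ha : 1 ≤ a) (M : ℕ) {g : ℂ} (hg : (Q a (M + 1)).eval g = 0) :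
    ((M : ℝ) + 1) ≤ ‖(derivative (Q a (M + 1))).eval g‖ := by
  have hn := root_norm a ha M hg
  obtain ⟨hg0, φ, h1, h2, h3⟩ := root_struct a ha M hg
  have ha0 : (a : ℂ) ≠ 0 := by
    norm_cast
    linarith
  have hT0 : (Chebyshev.T ℂ ((M + 1 : ℕ) : ℤ)).eval (sarg a g) = 0 := by
    rw [eval_Q a hg0] at hg
    rcases mul_eq_zero.1 hg with h | h
    · exact absurd h (pow_ne_zero _ hg0)
    · exact h
  -- derivative of sarg
  have hs : HasDerivAt (sarg a) ((a : ℂ) / 2 * (1 - 1 / g ^ 2)) g := by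
    have e1 : HasDerivAt (fun v : ℂ => (v - 1) ^ 2) (2 * (g - 1)) g := by
      simpa using ((hasDerivAt_id g).sub_const (1 : ℂ)).fun_pow 2
    have e2 : HasDerivAt (fun v : ℂ => (a : ℂ) * (v - 1) ^ 2) ((a : ℂ) * (2 * (g - 1))) g :=
      e1.const_mul _
    have e3 : HasDerivAt (fun v : ℂ => 2 * v) (2 * 1) g := (hasDerivAt_id g).const_mul 2
    have e4 := (e2.div e3 (by simpa using hg0)).const_add (1 : ℂ)
    refine e4.congr_deriv ?_
    field_simp
    ring
  have hT : HasDerivAt (fun s : ℂ => (Chebyshev.T ℂ ((M + 1 : ℕ) : ℤ)).eval s)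
      ((derivative (Chebyshev.T ℂ ((M + 1 : ℕ) : ℤ))).eval (sarg a g)) (sarg a g) :=
    Polynomial.hasDerivAt _ _
  have hcomp := hT.comp g hs
  have hpow : HasDerivAt (fun v : ℂ => v ^ (M + 1)) (((M + 1 : ℕ) : ℂ) * g ^ M) g := by
    simpa using hasDerivAt_pow (M + 1) g
  have hprod := hpow.mul hcomp
  have hQ : HasDerivAt (fun v : ℂ => (Q a (M + 1)).eval v)
      ((derivative (Q a (M + 1))).eval g) g := Polynomial.hasDerivAt _ _
  have heq : (fun v : ℂ => (Q a (M + 1)).eval v) =ᶠ[nhds g]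
      (fun v : ℂ => v ^ (M + 1)) * ((fun s : ℂ => (Chebyshev.T ℂ ((M + 1 : ℕ) : ℤ)).eval s) ∘ sarg a) := by
    filter_upwards [isOpen_compl_singleton.mem_nhds (show g ∈ ({0} : Set ℂ)ᶜ by simpa using hg0)]
      with v hv
    exact eval_Q a (by simpa using hv) (M + 1)
  have hval := hQ.unique (hprod.congr_of_eventuallyEq heq)
  rw [hval]
  simp only [Function.comp_apply, hT0, mul_zero, zero_add]
  rw [Chebyshev.T_derivative_eq_U]
  simp only [eval_mul, Int.cast_natCast, eval_natCast]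
  rw [norm_mul, norm_mul, norm_mul, norm_pow, hn, one_pow, one_mul, Complex.norm_natCast]
  push_cast
  -- the U factor
  have hU := Chebyshev.U_complex_cos (φ : ℂ) ((M : ℤ) + 1 - 1)
  rw [← Complex.ofReal_cos, ← h1] at hU
  have hsin : ‖Complex.sin ((((M : ℤ) + 1 - 1 : ℤ) + 1 : ℂ) * (φ : ℂ))‖ = 1 := by
    rw [show ((((M : ℤ) + 1 - 1 : ℤ) + 1 : ℂ) * (φ : ℂ)) = (((M + 1 : ℝ) * φ : ℝ) : ℂ) by
      push_cast
      ring, ← Complex.ofReal_sin, Complex.norm_real, Real.norm_eq_abs]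
    have := Real.sin_sq_add_cos_sq ((M + 1 : ℝ) * φ)
    rw [h2] at this
    have h4 : |Real.sin ((M + 1 : ℝ) * φ)| ^ 2 = 1 := by
      rw [sq_abs]
      nlinarith
    exact (pow_eq_one_iff_of_nonneg (abs_nonneg _) two_ne_zero).1 h4
  have hUn : ‖(Chebyshev.U ℂ ((M : ℤ) + 1 - 1)).eval (sarg a g)‖ * |Real.sin φ| = 1 := by
    rw [← hsin, ← hU, norm_mul, ← Complex.ofReal_sin, Complex.norm_real, Real.norm_eq_abs]
  -- reduce to |sin φ| ≤ (a/2)|1 - 1/g^2|
  have hmain : |Real.sin φ| ≤ ‖(a : ℂ) / 2 * (1 - 1 / g ^ 2)‖ := by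
    set x : ℝ := 1 - (1 - Real.cos φ) / a with hx
    have hc1 : Real.cos φ < 1 := by
      rcases lt_or_eq_of_le (Real.cos_le_one φ) with h | h
      · exact h
      · exfalso
        have := Real.sin_sq_add_cos_sq φ
        rw [h] at this
        apply h3
        nlinarith
    have hc2 : -1 < Real.cos φ := by
      rcases lt_or_eq_of_le (Real.neg_one_le_cos φ) with h | h
      · exact h
      · exfalso
        have := Real.sin_sq_add_cos_sq φ
        rw [← h] at this
        apply h3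
        nlinarith
    have hx2 : x < 1 := by
      rw [hx]
      have : 0 < (1 - Real.cos φ) / a := by
        apply div_pos <;> linarith
      linarith
    have hx1 : -1 < x := by
      rw [hx]
      have : (1 - Real.cos φ) / a ≤ 1 - Real.cos φ := by
        apply div_le_self <;> linarith
      linarith
    have key : g ^ 2 - 2 * x * g + 1 = 0 := by
      unfold sarg at h1
      have h5 : (a : ℂ) * (g - 1) ^ 2 = ((Real.cos φ : ℂ) - 1) * (2 * g) := by
        rw [← h1]
        field_simp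
        ring
      have h6 : (g - 1) ^ 2 = ((Real.cos φ : ℂ) - 1) / a * (2 * g) := by
        field_simp
        linear_combination h5
      rw [hx]
      generalize Real.cos φ = cc at h6
      push_cast
      linear_combination h6
    obtain ⟨_, hre⟩ := unimod hx1 hx2 key
    have him : g.im ^ 2 = 1 - x ^ 2 := by
      have : ‖g‖ ^ 2 = g.re ^ 2 + g.im ^ 2 := by
        rw [← Complex.normSq_eq_norm_sq, Complex.normSq_apply]
        ring
      rw [hn, hre] at this
      linarith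
    have hfac : ‖(a : ℂ) / 2 * (1 - 1 / g ^ 2)‖ = a * |g.im| := by
      have e1 : (1 : ℂ) - 1 / g ^ 2 = (g - g⁻¹) * g⁻¹ := by
        field_simp
      have e2 : g⁻¹ = (starRingEnd ℂ) g := by
        rw [Complex.inv_def, Complex.normSq_eq_norm_sq, hn]
        simp
      rw [e1, norm_mul, norm_mul, norm_inv, hn, inv_one, mul_one]
      have e3 : g - g⁻¹ = ((2 * g.im : ℝ) : ℂ) * Complex.I := by
        rw [e2]
        apply Complex.ext <;> simp
        ring
      rw [e3, norm_mul, Complex.norm_I, mul_one, Complex.norm_real, norm_div, Complex.norm_real,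
        Real.norm_eq_abs, Real.norm_eq_abs, abs_of_pos (by linarith : (0 : ℝ) < a), abs_mul]
      simp
      ring
    rw [hfac]
    have e5 : Real.sin φ ^ 2 = (1 - Real.cos φ) * (1 + Real.cos φ) := by
      have := Real.sin_sq_add_cos_sq φ
      nlinarith
    have e6 : 1 - Real.cos φ = a * (1 - x) := by
      rw [hx]
      have : a ≠ 0 := by linarith
      field_simp
      ring
    have e7 : |Real.sin φ| ^ 2 ≤ (a * |g.im|) ^ 2 := by
      rw [sq_abs, mul_pow, sq_abs, him, e5]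
      have e8 : Real.cos φ = 1 - a * (1 - x) := by linarith
      rw [e8]
      have e9 : 0 ≤ a * (1 - x) * (2 * a - 2) := by
        apply mul_nonneg
        · apply mul_nonneg <;> linarith
        · linarith
      nlinarith
    exact le_of_sq_le_sq e7 (by positivity)
  have hpos : 0 < |Real.sin φ| := abs_pos.2 h3
  have hUv : ‖(Chebyshev.U ℂ ((M : ℤ) + 1 - 1)).eval (sarg a g)‖ = 1 / |Real.sin φ| := by
    field_simp
    exact hUn
  rw [hUv]
  have : 1 ≤ 1 / |Real.sin φ| * ‖(a : ℂ) / 2 * (1 - 1 / g ^ 2)‖ := by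
    rw [one_div, ← div_eq_inv_mul, le_div_iff₀ hpos]
    linarith
  have hM0 : (0 : ℝ) ≤ (M : ℝ) + 1 := by positivity
  have hMn : ‖((M : ℂ) + 1)‖ = (M : ℝ) + 1 := by
    have := Complex.norm_natCast (M + 1)
    push_cast at this
    exact this
  calc ((M : ℝ) + 1) = ((M : ℝ) + 1) * 1 := by ring
    _ ≤ ((M : ℝ) + 1) * (1 / |Real.sin φ| * ‖(a : ℂ) / 2 * (1 - 1 / g ^ 2)‖) := by gcongr
    _ = _ := by ring

end Pool.Agent.H940R3.Fek
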