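import Pool.Agent.H940R3.Fek.Core
import Pool.Agent.H940R3.Fek.Block

set_option autoImplicit false

namespace Pool.Agent.H940R3.Fek

open Polynomial Metric Filter Topology

theorem isCompact_sublevel {P : ℂ[X]} (hD : 0 < P.natDegree) (r : ℝ) :
    IsCompact {z : ℂ | ‖P.eval z‖ ≤ r} := by
  have h1 : Tendsto (fun z : ℂ => ‖P.eval z‖) (cocompact ℂ) atTop := by
    apply P.tendsto_norm_atTop (natDegree_pos_iff_degree_pos.1 hD)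
    exact tendsto_norm_cocompact_atTop
  have h2 : {z : ℂ | ‖P.eval z‖ ≤ r} = (fun z : ℂ => ‖P.eval z‖) ⁻¹' Set.Iic r := rfl
  have hcl : IsClosed {z : ℂ | ‖P.eval z‖ ≤ r} :=
    isClosed_le (Polynomial.continuous P).norm continuous_const
  have h3 : ∀ᶠ z in cocompact ℂ, r < ‖P.eval z‖ := h1.eventually_gt_atTop r
  obtain ⟨t, ht, hts⟩ := mem_cocompact.1 h3
  refine ht.of_isClosed_subset hcl ?_
  intro z hz
  by_contra hzt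
  have h4 : r < ‖P.eval z‖ := hts hzt
  exact absurd h4 (not_lt.2 hz)

theorem exists_rho {P : ℂ[X]} (hD : 0 < P.natDegree) :
    ∃ ρ : ℝ, 1 / 4 ≤ ρ ∧ ρ ≤ 1 / 2 ∧ ∀ z : ℂ, ‖P.eval z‖ = ρ → (derivative P).eval z ≠ 0 := by
  have hd0 : derivative P ≠ 0 := by
    intro h
    have := derivative_eq_zero.1 h
    omega
  have hfin : Set.Finite ((fun z : ℂ => ‖P.eval z‖) '' {z : ℂ | (derivative P).IsRoot z}) := by
    apply Set.Finite.image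
    exact Polynomial.finite_setOfPred_isRoot hd0
  have hinf : Set.Infinite (Set.Icc (1 / 4 : ℝ) (1 / 2)) := Set.Icc_infinite (by norm_num)
  obtain ⟨ρ, hρ, hn⟩ := hinf.exists_notMem_finite hfin
  refine ⟨ρ, hρ.1, hρ.2, ?_⟩
  intro z hz h0
  exact hn ⟨z, h0, hz⟩

theorem exists_lower {P : ℂ[X]} (hD : 0 < P.natDegree) (S : Set ℂ) (hS : IsClosed S)
    (hS1 : ∀ z ∈ S, ‖P.eval z‖ ≤ 1) (hS2 : ∀ z ∈ S, (derivative P).eval z ≠ 0) :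
    ∃ b : ℝ, 0 < b ∧ ∀ z ∈ S, b ≤ ‖(derivative P).eval z‖ := by
  have hc : IsCompact S := (isCompact_sublevel hD 1).of_isClosed_subset hS hS1
  rcases S.eq_empty_or_nonempty with h | h
  · exact ⟨1, one_pos, by simp [h]⟩
  · obtain ⟨z0, hz0, hmin⟩ := hc.exists_isMinOn h
      ((Polynomial.continuous (derivative P)).norm.continuousOn)
    exact ⟨_, norm_pos_iff.2 (hS2 z0 hz0), fun z hz => hmin hz⟩

theorem exists_delta {P : ℂ[X]} (hD : 0 < P.natDegree) :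
    ∃ δ : ℝ, 0 < δ ∧ δ ≤ 1 ∧ ∀ z : ℂ, ‖P.eval z‖ ≤ 1 →
      closedBall z (2 * δ) ⊆ {w : ℂ | ‖P.eval w‖ ≤ 2} := by
  have h1 := isCompact_sublevel hD 1
  have h2 : IsOpen {w : ℂ | ‖P.eval w‖ < 2} :=
    isOpen_lt (Polynomial.continuous P).norm continuous_const
  have h3 : {z : ℂ | ‖P.eval z‖ ≤ 1} ⊆ {w : ℂ | ‖P.eval w‖ < 2} := by
    intro z hz
    have : ‖P.eval z‖ ≤ 1 := hz
    show ‖P.eval z‖ < 2
    linarith
  obtain ⟨ε, hε, hsub⟩ := h1.exists_cthickening_subset_open h2 h3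
  refine ⟨min 1 (ε / 2), by positivity, min_le_left _ _, ?_⟩
  intro z hz w hw
  have h4 : w ∈ cthickening ε {z : ℂ | ‖P.eval z‖ ≤ 1} := by
    apply mem_cthickening_of_dist_le w z ε _ hz
    rw [mem_closedBall] at hw
    have := min_le_right 1 (ε / 2)
    linarith
  have h5 : ‖P.eval w‖ < 2 := hsub h4
  show ‖P.eval w‖ ≤ 2
  exact h5.le

/-- the composed block -/
noncomputable def Pi (a : ℝ) (n : ℕ) (ρ : ℝ) (P : ℂ[X]) : ℂ[X] :=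
  (Q a n).comp (C ((ρ⁻¹ : ℝ) : ℂ) * P)

theorem eval_Pi (a : ℝ) (n : ℕ) (ρ : ℝ) (P : ℂ[X]) (z : ℂ) :
    (Pi a n ρ P).eval z = (Q a n).eval (((ρ⁻¹ : ℝ) : ℂ) * P.eval z) := by
  simp [Pi, eval_comp]

theorem natDegree_Pi_le (a : ℝ) (n : ℕ) (ρ : ℝ) (P : ℂ[X]) :
    (Pi a n ρ P).natDegree ≤ 2 * n * P.natDegree := by
  unfold Pi
  refine natDegree_comp_le.trans ?_
  have h1 := natDegree_Q_le a n
  have h2 := natDegree_C_mul_le ((ρ⁻¹ : ℝ) : ℂ) P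
  exact Nat.mul_le_mul h1 h2

theorem natDegree_Pi {a : ℝ} (ha : 1 ≤ a) (n : ℕ) {ρ : ℝ} (hρ : 0 < ρ) (P : ℂ[X]) :
    (Pi a (n + 1) ρ P).natDegree = 2 * (n + 1) * P.natDegree := by
  unfold Pi
  rw [natDegree_comp, natDegree_Q a ha, natDegree_C_mul]
  norm_cast
  exact (inv_pos.2 hρ).ne'

theorem norm_arg {ρ : ℝ} (hρ : 0 < ρ) (u : ℂ) : ‖((ρ⁻¹ : ℝ) : ℂ) * u‖ = ‖u‖ / ρ := by
  rw [norm_mul, Complex.norm_real, Real.norm_eq_abs, abs_of_pos (inv_pos.2 hρ)]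
  ring

theorem Pi_root {a : ℝ} (ha : 1 ≤ a) {n : ℕ} {ρ : ℝ} (hρ : 0 < ρ) {P : ℂ[X]} {f : ℂ}
    (hf : (Pi a (n + 1) ρ P).eval f = 0) : ‖P.eval f‖ = ρ := by
  rw [eval_Pi] at hf
  have h1 := root_norm a ha n hf
  rw [norm_arg hρ, div_eq_one_iff_eq hρ.ne'] at h1
  exact h1

theorem Pi_deriv {a : ℝ} (ha : 1 ≤ a) {n : ℕ} {ρ : ℝ} (hρ : 0 < ρ) {P : ℂ[X]} {f : ℂ}
    (hf : (Pi a (n + 1) ρ P).eval f = 0) :
    ((n : ℝ) + 1) * ‖(derivative P).eval f‖ / ρ ≤ ‖(derivative (Pi a (n + 1) ρ P)).eval f‖ := by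
  have h0 := hf
  rw [eval_Pi] at hf
  have h1 := deriv_Q_root a ha n hf
  have h2 : (derivative (Pi a (n + 1) ρ P)).eval f
      = (((ρ⁻¹ : ℝ) : ℂ) * (derivative P).eval f) *
        (derivative (Q a (n + 1))).eval (((ρ⁻¹ : ℝ) : ℂ) * P.eval f) := by
    unfold Pi
    rw [derivative_comp, derivative_C_mul]
    simp [eval_comp]
  rw [h2, norm_mul, norm_arg hρ]
  calc ((n : ℝ) + 1) * ‖(derivative P).eval f‖ / ρ
      = ‖(derivative P).eval f‖ / ρ * ((n : ℝ) + 1) := by ring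
    _ ≤ _ := by gcongr

theorem Pi_bound {a : ℝ} (ha : 1 ≤ a) (ha2 : a ≤ 2) (n : ℕ) {ρ : ℝ} (hρ : 1 / 4 ≤ ρ)
    (P : ℂ[X]) (z : ℂ) :
    ‖(Pi a n ρ P).eval z‖ ≤ 176 ^ n * max 1 ‖P.eval z‖ ^ (2 * n) := by
  have hρ0 : 0 < ρ := by linarith
  rw [eval_Pi]
  refine (norm_Q_le a ha ha2 _ n).trans ?_
  rw [norm_arg hρ0]
  have h1 : max 1 (‖P.eval z‖ / ρ) ≤ 4 * max 1 ‖P.eval z‖ := by
    apply max_le
    · have := le_max_left 1 ‖P.eval z‖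
      linarith
    · have h2 := le_max_right 1 ‖P.eval z‖
      rw [div_le_iff₀ hρ0]
      have h3 : 0 ≤ max 1 ‖P.eval z‖ := le_trans zero_le_one (le_max_left _ _)
      nlinarith
  calc (11 : ℝ) ^ n * max 1 (‖P.eval z‖ / ρ) ^ (2 * n)
      ≤ 11 ^ n * (4 * max 1 ‖P.eval z‖) ^ (2 * n) := by gcongr
    _ = 176 ^ n * max 1 ‖P.eval z‖ ^ (2 * n) := by
      rw [mul_pow, pow_mul 4, ← mul_assoc, ← mul_pow]
      norm_num

theorem Pi_bound2 {a : ℝ} (ha : 1 ≤ a) (ha2 : a ≤ 2) (n : ℕ) {ρ : ℝ} (hρ : 1 / 4 ≤ ρ)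
    (P : ℂ[X]) {z : ℂ} (hz : ‖P.eval z‖ ≤ 2) :
    ‖(Pi a n ρ P).eval z‖ ≤ 704 ^ n := by
  refine (Pi_bound ha ha2 n hρ P z).trans ?_
  have h1 : max 1 ‖P.eval z‖ ≤ 2 := max_le (by norm_num) hz
  have h0 : 0 ≤ max 1 ‖P.eval z‖ := le_trans zero_le_one (le_max_left _ _)
  calc (176 : ℝ) ^ n * max 1 ‖P.eval z‖ ^ (2 * n) ≤ 176 ^ n * 2 ^ (2 * n) := by gcongr
    _ = 704 ^ n := by
      rw [pow_mul, ← mul_pow]
      norm_num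

theorem Pi_zero {a : ℝ} {n : ℕ} {ρ : ℝ} {P : ℂ[X]} {z : ℂ} (hz : P.eval z = 0) :
    (Pi a (n + 1) ρ P).eval z = (a : ℂ) ^ (n + 1) / 2 := by
  rw [eval_Pi, hz, mul_zero, eval_zero_Q]

theorem Pi_lower {a : ℝ} (ha : 1 ≤ a) {n : ℕ} {ρ : ℝ} (hρ : 0 < ρ) (hρ2 : ρ ≤ 1 / 2) {P : ℂ[X]}
    {z : ℂ} (hz : 1 ≤ ‖P.eval z‖) : 1 / 2 ≤ ‖(Pi a (n + 1) ρ P).eval z‖ := by
  rw [eval_Pi]
  have hv : 2 ≤ ‖((ρ⁻¹ : ℝ) : ℂ) * P.eval z‖ := by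
    rw [norm_arg hρ, le_div_iff₀ hρ]
    linarith
  have h1 := lower_growth (p := Q a (n + 1)) (v := ((ρ⁻¹ : ℝ) : ℂ) * P.eval z)
    (fun f hf => (root_norm a ha n hf).le) (by linarith)
  refine le_trans ?_ h1
  have h2 : (Q a (n + 1)).leadingCoeff = (a : ℂ) ^ (n + 1) / 2 := by
    rw [leadingCoeff, natDegree_Q a ha, coeff_Q]
  rw [h2, norm_div, norm_pow, Complex.norm_real, Real.norm_eq_abs, abs_of_pos (by linarith)]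
  have h3 : 1 ≤ a ^ (n + 1) := one_le_pow₀ ha
  have h4 : 1 ≤ (‖((ρ⁻¹ : ℝ) : ℂ) * P.eval z‖ - 1) ^ (Q a (n + 1)).natDegree :=
    one_le_pow₀ (by linarith)
  have h5 : ‖(2 : ℂ)‖ = 2 := by simp
  rw [h5]
  nlinarith

end Pool.Agent.H940R3.Fek
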