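import Pool.Agent.H940R3.Fek.Lagr

set_option autoImplicit false

namespace Pool.Agent.H940R3.Fek

open Polynomial Metric

theorem qf_bound {K2 : Set ℂ} {p : ℂ[X]} {f : ℂ} {δ B : ℝ} (hδ : 0 < δ)
    (hp : p.eval f = 0) (hball : closedBall f δ ⊆ K2) (hB : ∀ w ∈ K2, ‖p.eval w‖ ≤ B)
    {w : ℂ} (hw : w ∈ K2) : ‖(qf p f).eval w‖ ≤ B / δ := by
  have key : ∀ z ∈ K2, δ ≤ ‖z - f‖ → ‖(qf p f).eval z‖ ≤ B / δ := by
    intro z hz hd
    have h1 := hB z hz
    rw [← eval_qf hp z, norm_mul] at h1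
    rw [le_div_iff₀ hδ]
    calc ‖(qf p f).eval z‖ * δ ≤ ‖(qf p f).eval z‖ * ‖z - f‖ := by gcongr
      _ ≤ B := by linarith
  by_cases h : δ ≤ ‖w - f‖
  · exact key w hw h
  · push Not at h
    have hd : DiffContOnCl ℂ (fun z => (qf p f).eval z) (ball f δ) :=
      (Polynomial.differentiable _).diffContOnCl
    refine Complex.norm_le_of_forall_mem_frontier_norm_le isBounded_ball hd ?_
      (subset_closure (by simpa [mem_ball, dist_eq_norm] using h))
    intro z hz
    rw [frontier_ball f hδ.ne'] at hz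
    have hz' : ‖z - f‖ = δ := by simpa [dist_eq_norm] using hz
    exact key z (hball (by simp [dist_eq_norm, hz'])) hz'.ge

theorem lip_bound {p : ℂ[X]} {e : ℂ} {δ W : ℝ} (hδ : 0 < δ)
    (hW : ∀ w ∈ closedBall e (2 * δ), ‖p.eval w‖ ≤ W) {x y : ℂ}
    (hx : ‖x - e‖ ≤ δ) (hy : ‖y - e‖ ≤ δ) : ‖p.eval x - p.eval y‖ ≤ W / δ * ‖x - y‖ := by
  have hder : ∀ z ∈ closedBall e δ, ‖deriv (fun z => p.eval z) z‖ ≤ W / δ := by
    intro z hz
    apply Complex.norm_deriv_le_of_forall_mem_sphere_norm_le hδ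
    · exact (Polynomial.differentiable _).diffContOnCl
    · intro w hw
      apply hW
      rw [mem_closedBall, dist_eq_norm] at *
      rw [mem_sphere, dist_eq_norm] at hw
      calc ‖w - e‖ = ‖(w - z) + (z - e)‖ := by ring_nf
        _ ≤ ‖w - z‖ + ‖z - e‖ := norm_add_le _ _
        _ ≤ 2 * δ := by linarith
  have := Convex.norm_image_sub_le_of_norm_deriv_le (f := fun z => p.eval z)
    (fun z _ => (Polynomial.differentiable p).differentiableAt) hder (convex_closedBall e δ)
    (x := y) (y := x) (by simpa [dist_eq_norm] using hy) (by simpa [dist_eq_norm] using hx)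
  exact this

/-- the node polynomial without the point `i` -/
noncomputable def om {m : ℕ} (x : Fin (m + 1) → ℂ) (i : Fin (m + 1)) : ℂ[X] :=
  ∏ j ∈ Finset.univ.erase i, (X - C (x j))

theorem natDegree_om {m : ℕ} (x : Fin (m + 1) → ℂ) (i : Fin (m + 1)) :
    (om x i).natDegree = m := by
  unfold om
  rw [natDegree_prod_of_monic _ _ (fun j _ => monic_X_sub_C _)]
  simp

theorem om_monic {m : ℕ} (x : Fin (m + 1) → ℂ) (i : Fin (m + 1)) : (om x i).Monic :=
  monic_prod_of_monic _ _ (fun j _ => monic_X_sub_C _)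

theorem norm_om {m : ℕ} (x : Fin (m + 1) → ℂ) (i : Fin (m + 1)) (z : ℂ) :
    ‖(om x i).eval z‖ = ∏ j ∈ Finset.univ.erase i, ‖z - x j‖ := by
  unfold om
  rw [eval_prod, norm_prod]
  simp

theorem om_zero {m : ℕ} (x : Fin (m + 1) → ℂ) {i j : Fin (m + 1)} (h : j ≠ i) :
    (om x i).eval (x j) = 0 := by
  unfold om
  rw [eval_prod]
  exact Finset.prod_eq_zero (Finset.mem_erase.2 ⟨h, Finset.mem_univ _⟩) (by simp)

theorem core {K K2 : Set ℂ} {F Z : Finset ℂ} {N k m : ℕ} {δ η Λ lam : ℝ}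
    (hK2 : IsCompact K2) (hFK : ∀ f ∈ F, f ∈ K) (hcard : F.card = N) (hN : 0 < N)
    (hnear : ∀ x ∈ K, ∃ e ∈ F ∪ Z, ‖x - e‖ ≤ η)
    (ell : ℂ → ℂ → ℂ)
    (hlag : ∀ w : ℂ[X], w.natDegree < N → ∀ z, w.eval z = ∑ f ∈ F, w.eval f * ell f z)
    (hell : ∀ f ∈ F, ∀ w ∈ K2, ‖ell f w‖ ≤ Λ)
    (hball : ∀ e ∈ F ∪ Z, closedBall e (2 * δ) ⊆ K2)
    (hδ : 0 < δ) (hη0 : 0 < η) (hηδ : η ≤ δ) (hΛ : 0 < Λ) (hlam0 : 0 ≤ lam)
    (hlam : ∀ f ∈ F, ∀ z ∈ Z, ∀ x, ‖x - z‖ ≤ η → ‖ell f x‖ ≤ lam)
    (hkl : (k + 1 + Z.card : ℝ) * lam ≤ 1 / 2)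
    (hsmall : 2 * (N : ℝ) ^ 2 * Λ * η < δ)
    (hm1 : m + 1 ≤ N) (hm2 : N ≤ m + 1 + k)
    (x : Fin (m + 1) → ℂ) (hx : ∀ i, x i ∈ K)
    (hfek : ∀ i, ∀ t ∈ K, ‖(om x i).eval t‖ ≤ ‖(om x i).eval (x i)‖) :
    ∀ i, ∃ f ∈ F, ‖x i - f‖ ≤ η := by
  classical
  choose e he hxe using fun i => hnear (x i) (hx i)
  -- sup bound for the node polynomials
  have hNR : (1 : ℝ) ≤ N := by exact_mod_cast hN
  have hFne : F.Nonempty := by
    rw [← Finset.card_pos, hcard]
    exact hN
  obtain ⟨f0, hf0⟩ := hFne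
  have hf0K2 : closedBall f0 (2 * δ) ⊆ K2 := hball f0 (Finset.mem_union_left _ hf0)
  have hK2ne : K2.Nonempty := ⟨f0, hf0K2 (mem_closedBall_self (by linarith))⟩
  have hW : ∀ i, ∃ W : ℝ, 0 < W ∧ (∀ w ∈ K2, ‖(om x i).eval w‖ ≤ W) ∧
      (∀ τ : ℝ, (∀ f ∈ F, ‖(om x i).eval f‖ ≤ τ) → W ≤ N * Λ * τ) := by
    intro i
    obtain ⟨w0, hw0, hmax⟩ := hK2.exists_isMaxOn hK2ne
      ((Polynomial.continuous (om x i)).norm.continuousOn)
    refine ⟨‖(om x i).eval w0‖, ?_, fun w hw => hmax hw, ?_⟩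
    · rw [norm_pos_iff]
      intro h0
      have hinf : Set.Infinite (closedBall f0 (2 * δ)) := by
        have h1 : (ball f0 (2 * δ)).Nonempty := ⟨f0, mem_ball_self (by linarith)⟩
        exact (infinite_of_mem_nhds f0 (closedBall_mem_nhds f0 (by linarith)))
      have hz : (om x i) = 0 := by
        apply Polynomial.eq_zero_of_infinite_isRoot
        refine hinf.mono ?_
        intro w hw
        have h2 : ‖(om x i).eval w‖ ≤ ‖(om x i).eval w0‖ := hmax (hf0K2 hw)
        rw [h0, norm_zero] at h2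
        exact norm_le_zero_iff.1 h2
      exact (om_monic x i).ne_zero hz
    · intro τ hτ
      rw [hlag (om x i) (by rw [natDegree_om]; omega) w0]
      calc ‖∑ f ∈ F, (om x i).eval f * ell f w0‖ ≤ ∑ f ∈ F, ‖(om x i).eval f * ell f w0‖ :=
            norm_sum_le _ _
        _ ≤ ∑ f ∈ F, τ * Λ := by
            apply Finset.sum_le_sum
            intro f hf
            rw [norm_mul]
            have h1 := hτ f hf
            have h2 := hell f hf w0 hw0
            have h3 : 0 ≤ τ := (norm_nonneg _).trans h1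
            gcongr
        _ = N * Λ * τ := by
            rw [Finset.sum_const, nsmul_eq_mul, hcard]
            ring
  have hlip : ∀ i : Fin (m + 1), ∀ W : ℝ, (∀ w ∈ K2, ‖(om x i).eval w‖ ≤ W) →
      ∀ e' ∈ F ∪ Z, ∀ y z : ℂ, ‖y - e'‖ ≤ η → ‖z - e'‖ ≤ η →
        ‖(om x i).eval y - (om x i).eval z‖ ≤ W / δ * ‖y - z‖ := by
    intro i W hW' e' he' y z hy hz
    exact lip_bound hδ (fun w hw => hW' w (hball e' he' hw)) (hy.trans hηδ) (hz.trans hηδ)
  -- Step 1 : no doubles
  have hinj : ∀ i j, i ≠ j → e i ≠ e j := by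
    intro i j hij hee
    obtain ⟨W, hW0, hW1, hW2⟩ := hW i
    have h1 : ‖(om x i).eval (x i)‖ ≤ W / δ * (2 * η) := by
      have h2 := hlip i W hW1 (e i) (he i) (x i) (x j) (hxe i) (by rw [hee]; exact hxe j)
      rw [om_zero x (Ne.symm hij), sub_zero] at h2
      refine h2.trans ?_
      have h3 : ‖x i - x j‖ ≤ 2 * η := by
        calc ‖x i - x j‖ = ‖(x i - e i) - (x j - e j)‖ := by
              rw [hee]
              congr 1
              ring
          _ ≤ ‖x i - e i‖ + ‖x j - e j‖ := norm_sub_le _ _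
          _ ≤ 2 * η := by linarith [hxe i, hxe j]
      gcongr
    have h4 := hW2 _ (fun f hf => (hfek i f (hFK f hf)).trans h1)
    have h5 : (N : ℝ) * Λ * (W / δ * (2 * η)) = W * ((2 * N * Λ * η) / δ) := by
      field_simp
    rw [h5] at h4
    have h6 : (2 * N * Λ * η) / δ < 1 := by
      rw [div_lt_one hδ]
      refine lt_of_le_of_lt ?_ hsmall
      have : (N : ℝ) ≤ (N : ℝ) ^ 2 := by nlinarith
      gcongr
    nlinarith
  -- Step 2
  intro i0
  by_contra hcon
  push Not at hcon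
  obtain ⟨W, hW0, hW1, hW2⟩ := hW i0
  have hi0Z : e i0 ∈ Z := by
    rcases Finset.mem_union.1 (he i0) with h | h
    · exact absurd (hxe i0) (not_le.2 (hcon _ h))
    · exact h
  set ω := ‖(om x i0).eval (x i0)‖ with hω
  set T : Finset ℂ := F.filter (fun f => ∀ l, l ≠ i0 → e l ≠ f) with hT
  have hTcard : (T.card : ℝ) ≤ k + 1 + Z.card := by
    have h1 : (F \ T).card + T.card = N := by
      rw [← hcard]
      exact Finset.card_sdiff_add_card_eq_card (Finset.filter_subset _ _)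
    have h2 : m ≤ (F \ T).card + Z.card := by
      have h3 : ((Finset.univ.erase i0).image e).card = m := by
        rw [Finset.card_image_of_injOn]
        · simp
        · intro a _ b _ hab
          by_contra hne
          exact hinj a b hne hab
      have h4 : (Finset.univ.erase i0).image e ⊆ (F \ T) ∪ Z := by
        intro f hf
        obtain ⟨l, hl, rfl⟩ := Finset.mem_image.1 hf
        rcases Finset.mem_union.1 (he l) with h | h
        · apply Finset.mem_union_left
          rw [Finset.mem_sdiff]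
          refine ⟨h, ?_⟩
          rw [hT, Finset.mem_filter]
          rintro ⟨_, h5⟩
          exact h5 l (Finset.ne_of_mem_erase hl) rfl
        · exact Finset.mem_union_right _ h
      have h5 := Finset.card_le_card h4
      rw [h3] at h5
      exact h5.trans (Finset.card_union_le _ _)
    have h6 : T.card ≤ k + 1 + Z.card := by omega
    exact_mod_cast h6
  have hlam1 : lam ≤ 1 := by
    have h1 : (1 : ℝ) ≤ (k + 1 + Z.card : ℝ) := by
      have : (0 : ℝ) ≤ k := by positivity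
      have : (0 : ℝ) ≤ Z.card := by positivity
      linarith
    nlinarith
  have hω0 : 0 ≤ ω := norm_nonneg _
  have hω1 : ω ≤ 2 * N * (W / δ * η) := by
    have h1 := hlag (om x i0) (by rw [natDegree_om]; omega) (x i0)
    have h2 : ω ≤ ∑ f ∈ F, ‖(om x i0).eval f‖ * lam := by
      rw [hω, h1]
      refine (norm_sum_le _ _).trans (Finset.sum_le_sum ?_)
      intro f hf
      rw [norm_mul]
      have := hlam f hf (e i0) hi0Z (x i0) (hxe i0)
      gcongr
    have h3 : ∑ f ∈ F, ‖(om x i0).eval f‖ * lam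
        = ∑ f ∈ F \ T, ‖(om x i0).eval f‖ * lam + ∑ f ∈ T, ‖(om x i0).eval f‖ * lam :=
      (Finset.sum_sdiff (Finset.filter_subset _ _)).symm
    have h4 : ∑ f ∈ T, ‖(om x i0).eval f‖ * lam ≤ ω / 2 := by
      calc ∑ f ∈ T, ‖(om x i0).eval f‖ * lam ≤ ∑ f ∈ T, ω * lam := by
            apply Finset.sum_le_sum
            intro f hf
            have hfF : f ∈ F := (Finset.mem_filter.1 hf).1
            have := hfek i0 f (hFK f hfF)
            gcongr
        _ = T.card * (ω * lam) := by rw [Finset.sum_const, nsmul_eq_mul]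
        _ ≤ (k + 1 + Z.card) * (ω * lam) := by gcongr
        _ = ω * ((k + 1 + Z.card) * lam) := by ring
        _ ≤ ω * (1 / 2) := by gcongr
        _ = ω / 2 := by ring
    have h5 : ∑ f ∈ F \ T, ‖(om x i0).eval f‖ * lam ≤ N * (W / δ * η) := by
      calc ∑ f ∈ F \ T, ‖(om x i0).eval f‖ * lam ≤ ∑ f ∈ F \ T, (W / δ * η) := by
            apply Finset.sum_le_sum
            intro f hf
            rw [Finset.mem_sdiff, hT, Finset.mem_filter] at hf
            obtain ⟨hfF, hnT⟩ := hf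
            push Not at hnT
            obtain ⟨l, hl, hle⟩ := hnT hfF
            have h6 := hlip i0 W hW1 f (Finset.mem_union_left _ hfF) f (x l)
              (by simpa using hη0.le) (by rw [← hle]; exact hxe l)
            rw [om_zero x hl, sub_zero] at h6
            have h7 : ‖f - x l‖ ≤ η := by
              rw [norm_sub_rev, ← hle]
              exact hxe l
            calc ‖(om x i0).eval f‖ * lam ≤ ‖(om x i0).eval f‖ * 1 := by gcongr
              _ ≤ W / δ * ‖f - x l‖ := by linarith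
              _ ≤ W / δ * η := by gcongr
        _ = (F \ T).card * (W / δ * η) := by rw [Finset.sum_const, nsmul_eq_mul]
        _ ≤ N * (W / δ * η) := by
            have : ((F \ T).card : ℝ) ≤ N := by
              rw [← hcard]
              exact_mod_cast Finset.card_le_card Finset.sdiff_subset
            gcongr
    linarith
  have h7 := hW2 ω (fun f hf => hfek i0 f (hFK f hf))
  have h8 : W ≤ N * Λ * (2 * N * (W / δ * η)) := h7.trans (by gcongr)
  have h9 : (N : ℝ) * Λ * (2 * N * (W / δ * η)) = W * ((2 * N ^ 2 * Λ * η) / δ) := by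
    field_simp
  rw [h9] at h8
  have h10 : (2 * (N : ℝ) ^ 2 * Λ * η) / δ < 1 := by
    rw [div_lt_one hδ]
    exact hsmall
  nlinarith

end Pool.Agent.H940R3.Fek
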