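import Mathlib

set_option autoImplicit false

namespace Pool.Agent.H940R3.Fek

open Polynomial

/-- all zeros are simple -/
def Simple (p : ℂ[X]) : Prop := ∀ z : ℂ, p.eval z = 0 → (derivative p).eval z ≠ 0

theorem card_roots_simple {p : ℂ[X]} (hp : Simple p) :
    p.roots.toFinset.card = p.natDegree := by
  have hnd : p.roots.Nodup := by
    rw [Multiset.nodup_iff_count_le_one]
    intro z
    rw [count_roots]
    by_contra h
    push Not at h
    by_cases hp0 : p = 0
    · rw [hp0] at h
      simp at h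
    have h2 : 1 < p.rootMultiplicity z := h
    have h3 := (one_lt_rootMultiplicity_iff_isRoot hp0).1 h2
    exact hp z (by first | exact h3.1 | exact h3.2) (by first | exact h3.2 | exact h3.1)
  rw [Multiset.toFinset_card_of_nodup hnd]
  exact IsAlgClosed.card_roots_eq_natDegree

/-- the quotient polynomial -/
noncomputable def qf (p : ℂ[X]) (f : ℂ) : ℂ[X] := p /ₘ (X - C f)

theorem mul_qf {p : ℂ[X]} {f : ℂ} (hf : p.eval f = 0) : (X - C f) * qf p f = p :=
  mul_divByMonic_eq_iff_isRoot.2 hf

theorem eval_qf {p : ℂ[X]} {f : ℂ} (hf : p.eval f = 0) (z : ℂ) :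
    (z - f) * (qf p f).eval z = p.eval z := by
  conv_rhs => rw [← mul_qf hf]
  simp

theorem eval_qf_self {p : ℂ[X]} {f : ℂ} (hf : p.eval f = 0) :
    (qf p f).eval f = (derivative p).eval f := by
  conv_rhs => rw [← mul_qf hf]
  simp [derivative_mul]

theorem natDegree_qf {p : ℂ[X]} {f : ℂ} : (qf p f).natDegree = p.natDegree - 1 := by
  unfold qf
  rw [natDegree_divByMonic _ (monic_X_sub_C f)]
  simp

/-- Lagrange interpolation at the zeros of `p`. -/
theorem lagrange {p : ℂ[X]} (hp : Simple p) {w : ℂ[X]} (hw : w.natDegree < p.natDegree) (z : ℂ) :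
    w.eval z = ∑ f ∈ p.roots.toFinset,
      w.eval f * ((qf p f).eval z / (derivative p).eval f) := by
  have hp0 : p ≠ 0 := by
    rintro rfl
    simp at hw
  set r : ℂ[X] := w - ∑ f ∈ p.roots.toFinset,
      C (w.eval f / (derivative p).eval f) * qf p f with hr
  have hdeg : r.natDegree < p.roots.toFinset.card := by
    rw [card_roots_simple hp]
    refine lt_of_le_of_lt (natDegree_sub_le _ _) (max_lt hw ?_)
    refine lt_of_le_of_lt (natDegree_sum_le_of_forall_le (n := p.natDegree - 1) _ _ ?_) (by omega)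
    intro f _
    refine (natDegree_C_mul_le _ _).trans ?_
    rw [natDegree_qf]
  have hzero : r = 0 := by
    apply eq_zero_of_natDegree_lt_card_of_eval_eq_zero' r p.roots.toFinset _ hdeg
    intro g hg
    have hgr : p.eval g = 0 := by
      rw [Multiset.mem_toFinset, mem_roots hp0] at hg
      exact hg
    rw [hr, eval_sub, eval_finsetSum, Finset.sum_eq_single_of_mem g hg]
    · rw [eval_mul, eval_C, eval_qf_self hgr, div_mul_cancel₀ _ (hp g hgr), sub_self]
    · intro f hf hfg
      have hfr : p.eval f = 0 := by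
        rw [Multiset.mem_toFinset, mem_roots hp0] at hf
        exact hf
      have h1 := eval_qf hfr g
      rw [hgr] at h1
      have h2 : (qf p f).eval g = 0 := by
        rcases mul_eq_zero.1 h1 with h | h
        · exact absurd (sub_eq_zero.1 h) (Ne.symm hfg)
        · exact h
      rw [eval_mul, h2, mul_zero]
  have h3 : w = ∑ f ∈ p.roots.toFinset, C (w.eval f / (derivative p).eval f) * qf p f :=
    sub_eq_zero.1 hzero
  conv_lhs => rw [h3]
  rw [eval_finsetSum]
  apply Finset.sum_congr rfl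
  intro f _
  rw [eval_mul, eval_C]
  ring

/-- A polynomial with simple zeros is bounded below by the distance to its zeros. -/
theorem lower_dist {p : ℂ[X]} (hp : Simple p) (hd : 0 < p.natDegree) {β : ℝ} (hβ : 0 < β)
    (hder : ∀ f : ℂ, p.eval f = 0 → β ≤ ‖(derivative p).eval f‖) (z : ℂ) :
    ∃ f : ℂ, p.eval f = 0 ∧ ‖z - f‖ ≤ p.natDegree * ‖p.eval z‖ / β := by
  have hp0 : p ≠ 0 := by
    rintro rfl
    simp at hd
  have h1 := lagrange hp (w := 1) (by simpa using hd) z
  simp only [eval_one, one_mul] at h1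
  have h2 : (1 : ℝ) ≤ ∑ f ∈ p.roots.toFinset, ‖(qf p f).eval z / (derivative p).eval f‖ := by
    calc (1 : ℝ) = ‖(1 : ℂ)‖ := by simp
      _ = ‖∑ f ∈ p.roots.toFinset, (qf p f).eval z / (derivative p).eval f‖ := by rw [← h1]
      _ ≤ _ := norm_sum_le _ _
  have hcard : (p.roots.toFinset.card : ℝ) = p.natDegree := by
    rw [card_roots_simple hp]
  have hdR : (0 : ℝ) < p.natDegree := by exact_mod_cast hd
  have hne : p.roots.toFinset.Nonempty := by
    rw [← Finset.card_pos, card_roots_simple hp]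
    exact hd
  obtain ⟨f, hf, hle⟩ : ∃ f ∈ p.roots.toFinset,
      1 / (p.natDegree : ℝ) ≤ ‖(qf p f).eval z / (derivative p).eval f‖ := by
    by_contra hcon
    push Not at hcon
    have h3 : ∑ f ∈ p.roots.toFinset, ‖(qf p f).eval z / (derivative p).eval f‖
        < ∑ f ∈ p.roots.toFinset, 1 / (p.natDegree : ℝ) :=
      Finset.sum_lt_sum_of_nonempty hne hcon
    rw [Finset.sum_const, nsmul_eq_mul, hcard, mul_one_div_cancel hdR.ne'] at h3
    linarith
  have hfr : p.eval f = 0 := by
    rw [Multiset.mem_toFinset, mem_roots hp0] at hf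
    exact hf
  refine ⟨f, hfr, ?_⟩
  have hd' := hder f hfr
  have hdpos : 0 < ‖(derivative p).eval f‖ := lt_of_lt_of_le hβ hd'
  rw [norm_div, div_le_div_iff₀ hdR hdpos, one_mul] at hle
  have hev : ‖p.eval z‖ = ‖z - f‖ * ‖(qf p f).eval z‖ := by
    rw [← norm_mul, eval_qf hfr]
  rw [le_div_iff₀ hβ, hev]
  calc ‖z - f‖ * β ≤ ‖z - f‖ * (‖(qf p f).eval z‖ * p.natDegree) := by
        gcongr
        exact hd'.trans hle
    _ = _ := by ring

/-- growth away from the unit disc -/
theorem lower_growth {p : ℂ[X]} (hroots : ∀ f : ℂ, p.eval f = 0 → ‖f‖ ≤ 1) {v : ℂ}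
    (hv : 1 ≤ ‖v‖) : ‖p.leadingCoeff‖ * (‖v‖ - 1) ^ p.natDegree ≤ ‖p.eval v‖ := by
  by_cases hp0 : p = 0
  · simp [hp0]
  have hs := IsAlgClosed.splits p
  have h1 : p.eval v = p.leadingCoeff * (p.roots.map (fun a => v - a)).prod := by
    exact Splits.eval_eq_prod_roots hs v
  rw [h1, norm_mul]
  gcongr
  rw [← IsAlgClosed.card_roots_eq_natDegree (p := p)]
  have hm : ∀ a ∈ p.roots, ‖v‖ - 1 ≤ ‖v - a‖ := by
    intro a ha
    have h2 := hroots a ((mem_roots hp0).1 ha)
    have h3 := norm_sub_norm_le v a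
    linarith
  have key : ∀ s : Multiset ℂ, (∀ a ∈ s, ‖v‖ - 1 ≤ ‖v - a‖) →
      (‖v‖ - 1) ^ (Multiset.card s) ≤ ‖(s.map (fun a => v - a)).prod‖ := by
    intro s
    induction s using Multiset.induction_on with
    | empty => simp
    | cons a s ih =>
      intro h
      rw [Multiset.card_cons, Multiset.map_cons, Multiset.prod_cons, norm_mul, pow_succ, mul_comm]
      have h4 := ih (fun b hb => h b (Multiset.mem_cons_of_mem hb))
      have h5 := h a (Multiset.mem_cons_self a s)
      have h6 : 0 ≤ ‖v‖ - 1 := by linarith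
      gcongr
  exact key _ hm

end Pool.Agent.H940R3.Fek
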