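import Pool.Agent.H940R3.Fek.Step
import Pool.Agent.H940R3.Fek.BW

set_option autoImplicit false

namespace Pool.Agent.H940R3.Fek

open Polynomial Metric Filter Topology

/-- one stage of the construction -/
def StepProp (k : ℕ) (Cb : ℝ) (P P' : ℂ[X]) : Prop :=
  ∃ (r N n0 : ℕ) (p : ℂ[X]),
      P'.natDegree = r * P.natDegree ∧ 3 ≤ r ∧ Simple P' ∧
      (∀ z, P.eval z = 0 → P'.eval z = 0) ∧
      (∀ z, ‖P'.eval z‖ ≤ 1 → ‖P.eval z‖ ≤ 1) ∧
      (∀ z, ‖P'.eval z‖ ≤ (1000 * max 1 ‖P.eval z‖) ^ r) ∧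
      p.natDegree ≤ n0 ∧ k * (n0 + 1) + 1 ≤ N ∧
      (∀ K : Set ℂ, (∀ x ∈ K, ‖P'.eval x‖ ≤ 1) → (∀ z, P'.eval z = 0 → z ∈ K) →
        ∀ m : ℕ, m + 1 ≤ N → N ≤ m + 1 + k → ∀ x : Fin (m + 1) → ℂ, IsFek K x →
          ∀ i, ‖p.eval (x i)‖ ≤ 2) ∧
      (∀ z, P.eval z = 0 → Cb ≤ ‖p.eval z‖)

theorem exists_seq : ∃ P : ℕ → ℂ[X], P 0 = X ∧ (∀ j, 0 < (P j).natDegree) ∧ (∀ j, Simple (P j)) ∧
    ∀ j, StepProp (j + 1) (2 * ((j : ℝ) + 1)) (P j) (P (j + 1)) := by
  have h : ∀ (j : ℕ) (S : {P : ℂ[X] // 0 < P.natDegree ∧ Simple P}),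
      ∃ S' : {P : ℂ[X] // 0 < P.natDegree ∧ Simple P},
        StepProp (j + 1) (2 * ((j : ℝ) + 1)) S.1 S'.1 := by
    intro j S
    obtain ⟨P', r, N, n0, p, h1, h2, h3, h4⟩ :=
      step S.2.1 S.2.2 (j + 1) (by omega) (2 * ((j : ℝ) + 1))
    refine ⟨⟨P', ?_, h3⟩, r, N, n0, p, h1, h2, h3, h4⟩
    rw [h1]
    have := S.2.1
    positivity
  choose next hnext using h
  have hX : 0 < (X : ℂ[X]).natDegree ∧ Simple (X : ℂ[X]) := by
    refine ⟨by simp, ?_⟩
    intro z _
    simp
  refine ⟨fun j => (Nat.rec ⟨X, hX⟩ (fun j S => next j S) j :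
    {P : ℂ[X] // 0 < P.natDegree ∧ Simple P}).1, rfl, fun j => ?_, fun j => ?_, fun j => ?_⟩
  · exact (Nat.rec ⟨X, hX⟩ (fun j S => next j S) j :
      {P : ℂ[X] // 0 < P.natDegree ∧ Simple P}).2.1
  · exact (Nat.rec ⟨X, hX⟩ (fun j S => next j S) j :
      {P : ℂ[X] // 0 < P.natDegree ∧ Simple P}).2.2
  · exact hnext j _

/-- the limit set -/
def Ks (P : ℕ → ℂ[X]) : Set ℂ := {z | ∀ j, ‖(P j).eval z‖ ≤ 1}

/-- the approximants of the Green function -/
noncomputable def gj (P : ℕ → ℂ[X]) (j : ℕ) (z : ℂ) : ℝ :=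
  Real.log (max 1 ‖(P j).eval z‖) / (P j).natDegree

theorem gj_nonneg (P : ℕ → ℂ[X]) (j : ℕ) (z : ℂ) : 0 ≤ gj P j z :=
  div_nonneg (Real.log_nonneg (le_max_left _ _)) (by positivity)

theorem gj_cont (P : ℕ → ℂ[X]) (j : ℕ) : Continuous (gj P j) := by
  unfold gj
  apply Continuous.div_const
  apply Continuous.log
  · exact continuous_const.max (Polynomial.continuous _).norm
  · intro z
    have : (0 : ℝ) < max 1 ‖(P j).eval z‖ := lt_of_lt_of_le one_pos (le_max_left _ _)
    exact this.ne'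

section
variable {P : ℕ → ℂ[X]} (hD : ∀ j, 0 < (P j).natDegree)
  (hS : ∀ j, StepProp (j + 1) (2 * ((j : ℝ) + 1)) (P j) (P (j + 1)))
include hS

theorem deg_mul (j : ℕ) : 3 * (P j).natDegree ≤ (P (j + 1)).natDegree := by
  obtain ⟨r, N, n0, p, h1, h2, -⟩ := hS j
  rw [h1]
  exact Nat.mul_le_mul_right _ h2

include hD

theorem deg_ge (j : ℕ) : 3 ^ j ≤ (P j).natDegree := by
  induction j with
  | zero =>
    rw [pow_zero]
    exact hD 0
  | succ j ih =>
    rw [pow_succ]
    have := deg_mul hS j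
    omega

theorem gj_step (j : ℕ) (z : ℂ) : gj P (j + 1) z ≤ gj P j z + 7 * (1 / 3) ^ j := by
  obtain ⟨r, N, n0, p, h1, h2, h3, h4, h5, h6, -⟩ := hS j
  have hDj : (0 : ℝ) < (P j).natDegree := by exact_mod_cast hD j
  have hr : (0 : ℝ) < r := by
    have : (3 : ℝ) ≤ r := by exact_mod_cast h2
    linarith
  set w := max 1 ‖(P j).eval z‖ with hw
  have hw1 : 1 ≤ w := le_max_left _ _
  have e1 : Real.log (max 1 ‖(P (j + 1)).eval z‖) ≤ r * (Real.log 1000 + Real.log w) := by
    rw [← Real.log_mul (by norm_num) (by linarith), ← Real.log_pow]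
    apply Real.log_le_log (lt_of_lt_of_le one_pos (le_max_left _ _))
    apply max_le
    · apply one_le_pow₀
      nlinarith
    · exact h6 z
  have e2 : Real.log 1000 ≤ 7 := by
    have : Real.log 1000 ≤ Real.log (Real.exp 7) := by
      apply Real.log_le_log (by norm_num)
      have h7 : (2.7182818283 : ℝ) ^ 7 ≤ Real.exp 1 ^ 7 := by
        gcongr
        exact Real.exp_one_gt_d9.le
      rw [← Real.exp_nat_mul] at h7
      norm_num at h7
      linarith
    simpa using this
  have e3 : (3 : ℝ) ^ j ≤ (P j).natDegree := by exact_mod_cast deg_ge hD hS j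
  unfold gj
  rw [h1]
  push_cast
  calc Real.log (max 1 ‖(P (j + 1)).eval z‖) / (r * (P j).natDegree)
      ≤ (r * (Real.log 1000 + Real.log w)) / (r * (P j).natDegree) := by gcongr
    _ = Real.log w / (P j).natDegree + Real.log 1000 / (P j).natDegree := by
      field_simp
      ring
    _ ≤ Real.log w / (P j).natDegree + 7 / 3 ^ j := by gcongr
    _ = Real.log w / (P j).natDegree + 7 * (1 / 3) ^ j := by
      rw [one_div, inv_pow]
      ring

theorem gj_far (j i : ℕ) (z : ℂ) : gj P (j + i) z ≤ gj P j z + 21 / 2 * (1 / 3) ^ j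
    - 21 / 2 * (1 / 3) ^ (j + i) := by
  induction i with
  | zero => simp
  | succ i ih =>
    have h := gj_step hD hS (j + i) z
    rw [show j + (i + 1) = (j + i) + 1 by ring]
    have : (1 / 3 : ℝ) ^ (j + i + 1) = 1 / 3 * (1 / 3) ^ (j + i) := by ring
    rw [this]
    linarith

theorem gj_bdd (z : ℂ) : BddAbove (Set.range fun j => gj P j z) := by
  refine ⟨gj P 0 z + 21 / 2, ?_⟩
  rintro _ ⟨i, rfl⟩
  have h := gj_far hD hS 0 i z
  simp only [zero_add, pow_zero, mul_one] at h
  have : (0 : ℝ) ≤ 21 / 2 * (1 / 3) ^ i := by positivity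
  show gj P i z ≤ _
  linarith

theorem gj_mono_approx (j : ℕ) (z : ℂ) : (⨆ i, gj P i z) ≤
    max (⨆ i : Fin (j + 1), gj P i z) (gj P j z + 21 / 2 * (1 / 3) ^ j) := by
  apply ciSup_le
  intro i
  by_cases hij : i ≤ j
  · apply le_max_of_le_left
    exact le_ciSup (f := fun i : Fin (j + 1) => gj P i z) (Set.finite_range _).bddAbove
      ⟨i, by omega⟩
  · apply le_max_of_le_right
    obtain ⟨l, rfl⟩ : ∃ l, i = j + l := ⟨i - j, by omega⟩
    have h := gj_far hD hS j l z
    have : (0 : ℝ) ≤ 21 / 2 * (1 / 3) ^ (j + l) := by positivity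
    linarith

/-- the Green function -/
theorem g_cont : Continuous (fun z => ⨆ i, gj P i z) := by
  have h : TendstoUniformly (fun (j : ℕ) (z : ℂ) => (Finset.range (j + 1)).sup'
      Finset.nonempty_range_add_one (fun i => gj P i z)) (fun z => ⨆ i, gj P i z) atTop := by
    rw [Metric.tendstoUniformly_iff]
    intro ε hε
    have t : Tendsto (fun j : ℕ => 21 / 2 * (1 / 3 : ℝ) ^ j) atTop (𝓝 0) := by
      have := (tendsto_pow_atTop_nhds_zero_of_lt_one (r := (1 / 3 : ℝ)) (by norm_num)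
        (by norm_num)).const_mul (21 / 2)
      simpa using this
    filter_upwards [t.eventually_lt_const hε] with j hj z
    set s := (Finset.range (j + 1)).sup' Finset.nonempty_range_add_one (fun i => gj P i z) with hs
    have h1 : s ≤ ⨆ i, gj P i z := by
      apply Finset.sup'_le
      intro i _
      exact le_ciSup (gj_bdd hD hS z) i
    have h2 : (⨆ i, gj P i z) ≤ s + 21 / 2 * (1 / 3) ^ j := by
      apply ciSup_le
      intro i
      by_cases hij : i ≤ j
      · have h3 : gj P i z ≤ s :=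
          Finset.le_sup' (fun i => gj P i z) (Finset.mem_range.2 (by omega))
        have : (0 : ℝ) ≤ 21 / 2 * (1 / 3) ^ j := by positivity
        linarith
      · obtain ⟨l, rfl⟩ : ∃ l, i = j + l := ⟨i - j, by omega⟩
        have h3 := gj_far hD hS j l z
        have h4 : (0 : ℝ) ≤ 21 / 2 * (1 / 3) ^ (j + l) := by positivity
        have h5 : gj P j z ≤ s :=
          Finset.le_sup' (fun i => gj P i z) (Finset.mem_range.2 (by omega))
        linarith
    rw [Real.dist_eq, abs_of_nonneg (by linarith)]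
    linarith
  apply h.continuous
  apply Frequently.of_forall
  intro j
  exact Continuous.finset_sup'_apply _ (fun i _ => gj_cont P i)

theorem Ks_compact : IsCompact (Ks P) := by
  refine (isCompact_sublevel (hD 0) 1).of_isClosed_subset ?_ (fun z hz => hz 0)
  unfold Ks
  rw [Set.ofPred_forall]
  exact isClosed_iInter fun j => isClosed_le (Polynomial.continuous _).norm continuous_const

theorem nested_le (j i : ℕ) (z : ℂ) (h : ‖(P (j + i)).eval z‖ ≤ 1) : ‖(P j).eval z‖ ≤ 1 := by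
  induction i with
  | zero => exact h
  | succ i ih =>
    apply ih
    obtain ⟨r, N, n0, p, h1, h2, h3, h4, h5, -⟩ := hS (j + i)
    exact h5 z h

theorem nested_zero (j i : ℕ) (z : ℂ) (h : (P j).eval z = 0) : (P (j + i)).eval z = 0 := by
  induction i with
  | zero => exact h
  | succ i ih =>
    obtain ⟨r, N, n0, p, h1, h2, h3, h4, h5, -⟩ := hS (j + i)
    exact h4 z ih

theorem zero_mem (j : ℕ) (z : ℂ) (h : (P j).eval z = 0) : z ∈ Ks P := by
  intro i
  by_cases hij : j ≤ i
  · obtain ⟨l, rfl⟩ : ∃ l, i = j + l := ⟨i - j, by omega⟩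
    rw [nested_zero hD hS j l z h]
    simp
  · obtain ⟨l, rfl⟩ : ∃ l, j = i + l := ⟨j - i, by omega⟩
    apply nested_le hD hS i l z
    rw [h]
    simp

theorem Ks_infinite (hsimp : ∀ j, Simple (P j)) : (Ks P).Infinite := by
  intro hfin
  have h1 : ∀ j, (P j).natDegree ≤ hfin.toFinset.card := by
    intro j
    rw [← card_roots_simple (hsimp j)]
    apply Finset.card_le_card
    intro z hz
    rw [Set.Finite.mem_toFinset]
    apply zero_mem hD hS j
    have hne : P j ≠ 0 := by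
      intro h0
      have := hD j
      rw [h0] at this
      simp at this
    rw [Multiset.mem_toFinset, mem_roots hne] at hz
    exact hz
  have h2 := (deg_ge hD hS hfin.toFinset.card).trans (h1 hfin.toFinset.card)
  have h3 : hfin.toFinset.card < 3 ^ hfin.toFinset.card := Nat.lt_pow_self (by norm_num)
  omega

theorem bw_Ks {q : ℂ[X]} {n : ℕ} (hq : q.natDegree ≤ n) (hle : ∀ z ∈ Ks P, ‖q.eval z‖ ≤ 1)
    (z : ℂ) : ‖q.eval z‖ ≤ Real.exp (n * ⨆ i, gj P i z) := by
  have key : ∀ ε : ℝ, 0 < ε → ‖q.eval z‖ ≤ (1 + ε) * Real.exp (n * ⨆ i, gj P i z) := by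
    intro ε hε
    obtain ⟨j, hj⟩ : ∃ j, ∀ w, ‖(P j).eval w‖ ≤ 1 → ‖q.eval w‖ ≤ 1 + ε := by
      by_contra hcon
      push Not at hcon
      have hne := IsCompact.nonempty_iInter_of_sequence_nonempty_isCompact_isClosed
        (fun j : ℕ => {w : ℂ | ‖(P j).eval w‖ ≤ 1} ∩ {w : ℂ | 1 + ε ≤ ‖q.eval w‖})
        (by
          intro j w hw
          refine ⟨?_, hw.2⟩
          exact nested_le hD hS j 1 w hw.1)
        (by
          intro j
          obtain ⟨w, hw1, hw2⟩ := hcon j
          exact ⟨w, hw1, hw2.le⟩)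
        ((isCompact_sublevel (hD 0) 1).inter_right
          (isClosed_le continuous_const (Polynomial.continuous _).norm))
        (by
          intro j
          exact (isClosed_le (Polynomial.continuous _).norm continuous_const).inter
            (isClosed_le continuous_const (Polynomial.continuous _).norm))
      obtain ⟨w, hw⟩ := hne
      rw [Set.mem_iInter] at hw
      have h1 : w ∈ Ks P := fun j => (hw j).1
      have h2 : 1 + ε ≤ ‖q.eval w‖ := (hw 0).2
      have h3 := hle w h1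
      linarith
    have h1 := bw (hD j) hq (by linarith : 0 < 1 + ε) hj z
    have hDj : (0 : ℝ) < (P j).natDegree := by exact_mod_cast hD j
    have hw1 : (0 : ℝ) < max 1 ‖(P j).eval z‖ := lt_of_lt_of_le one_pos (le_max_left _ _)
    have h2 : ‖q.eval z‖ ^ (P j).natDegree
        ≤ ((1 + ε) * Real.exp (n * gj P j z)) ^ (P j).natDegree := by
      refine h1.trans (le_of_eq ?_)
      rw [mul_pow, ← Real.exp_nat_mul]
      congr 1
      unfold gj
      have : ((P j).natDegree : ℝ) * (n * (Real.log (max 1 ‖(P j).eval z‖) / (P j).natDegree))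
          = n * Real.log (max 1 ‖(P j).eval z‖) := by
        field_simp
      rw [this, Real.exp_nat_mul, Real.exp_log hw1]
    have h3 : ‖q.eval z‖ ≤ (1 + ε) * Real.exp (n * gj P j z) := by
      apply le_of_pow_le_pow_left₀ (hD j).ne' (by positivity) h2
    refine h3.trans ?_
    have h4 : gj P j z ≤ ⨆ i, gj P i z := le_ciSup (gj_bdd hD hS z) j
    gcongr
  have hlim : Tendsto (fun ε : ℝ => (1 + ε) * Real.exp (n * ⨆ i, gj P i z)) (𝓝[>] 0)
      (𝓝 ((1 + 0) * Real.exp (n * ⨆ i, gj P i z))) := by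
    apply Tendsto.mono_left _ nhdsWithin_le_nhds
    apply Continuous.tendsto
    fun_prop
  rw [add_zero, one_mul] at hlim
  apply ge_of_tendsto hlim
  filter_upwards [self_mem_nhdsWithin] with ε hε
  exact key ε hε

end

end Pool.Agent.H940R3.Fek
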