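import Pool.Agent.H940R3.Fek.Consts

set_option autoImplicit false

namespace Pool.Agent.H940R3.Fek

open Polynomial Metric Filter Topology

theorem large (k : ℕ) (hk : 1 ≤ k) {ε : ℝ} (hε : 0 < ε) (C A : ℝ) :
    ∃ ν : ℕ, 1 ≤ ν ∧ (2 * ((2 * k * ν : ℕ) : ℝ) + 1) ^ 3 * (704 / 1000) ^ (2 * k * ν) ≤ ε ∧
      A ≤ Real.sqrt ((2 * k * ν : ℕ) : ℝ) ∧
      2 * C ≤ Real.exp (Real.log ((2 * k * ν : ℕ) : ℝ) / (4 * k)) := by
  have hkR : (0 : ℝ) < k := by exact_mod_cast hk
  have t1 : Tendsto (fun n : ℕ => 27 * ((n : ℝ) ^ 3 * (704 / 1000 : ℝ) ^ n)) atTop (𝓝 0) := by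
    have h := (tendsto_pow_const_mul_const_pow_of_abs_lt_one 3
      (show |(704 / 1000 : ℝ)| < 1 by rw [abs_of_pos] <;> norm_num)).const_mul 27
    simpa using h
  have e1 : ∀ᶠ n : ℕ in atTop, (2 * (n : ℝ) + 1) ^ 3 * (704 / 1000) ^ n ≤ ε := by
    filter_upwards [t1.eventually_le_const hε, eventually_ge_atTop 1] with n hn hn1
    refine le_trans ?_ hn
    have hn1' : (1 : ℝ) ≤ n := by exact_mod_cast hn1
    have h1 : (2 * (n : ℝ) + 1) ^ 3 ≤ (3 * n) ^ 3 := by
      gcongr
      linarith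
    calc (2 * (n : ℝ) + 1) ^ 3 * (704 / 1000) ^ n ≤ (3 * n) ^ 3 * (704 / 1000) ^ n := by gcongr
      _ = 27 * ((n : ℝ) ^ 3 * (704 / 1000 : ℝ) ^ n) := by ring
  have e2 : ∀ᶠ n : ℕ in atTop, A ≤ Real.sqrt (n : ℝ) :=
    (Real.tendsto_sqrt_atTop.comp tendsto_natCast_atTop_atTop).eventually_ge_atTop A
  have e3 : ∀ᶠ n : ℕ in atTop, 2 * C ≤ Real.exp (Real.log (n : ℝ) / (4 * k)) := by
    have h1 : Tendsto (fun n : ℕ => Real.log (n : ℝ) / (4 * k)) atTop atTop :=
      (Real.tendsto_log_atTop.comp tendsto_natCast_atTop_atTop).atTop_div_const (by positivity)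
    exact (Real.tendsto_exp_atTop.comp h1).eventually_ge_atTop (2 * C)
  have t : Tendsto (fun ν : ℕ => 2 * k * ν) atTop atTop := by
    apply tendsto_id.const_mul_atTop'
    omega
  have e := (t.eventually (e1.and (e2.and e3))).and (eventually_ge_atTop 1)
  obtain ⟨ν, ⟨h1, h2, h3⟩, h4⟩ := e.exists
  exact ⟨ν, h4, h1, h2, h3⟩

/-- the Fekete property of a tuple -/
def IsFek (K : Set ℂ) {m : ℕ} (x : Fin (m + 1) → ℂ) : Prop :=
  (∀ i, x i ∈ K) ∧ ∀ i, ∀ t ∈ K, ‖(om x i).eval t‖ ≤ ‖(om x i).eval (x i)‖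

set_option maxHeartbeats 1000000 in
theorem step {P : ℂ[X]} (hD : 0 < P.natDegree) (hP : Simple P) (k : ℕ) (hk : 1 ≤ k) (C : ℝ) :
    ∃ (P' : ℂ[X]) (r N n0 : ℕ) (p : ℂ[X]),
      P'.natDegree = r * P.natDegree ∧ 3 ≤ r ∧ Simple P' ∧
      (∀ z, P.eval z = 0 → P'.eval z = 0) ∧
      (∀ z, ‖P'.eval z‖ ≤ 1 → ‖P.eval z‖ ≤ 1) ∧
      (∀ z, ‖P'.eval z‖ ≤ (1000 * max 1 ‖P.eval z‖) ^ r) ∧
      p.natDegree ≤ n0 ∧ k * (n0 + 1) + 1 ≤ N ∧
      (∀ K : Set ℂ, (∀ x ∈ K, ‖P'.eval x‖ ≤ 1) → (∀ z, P'.eval z = 0 → z ∈ K) →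
        ∀ m : ℕ, m + 1 ≤ N → N ≤ m + 1 + k → ∀ x : Fin (m + 1) → ℂ, IsFek K x →
          ∀ i, ‖p.eval (x i)‖ ≤ 2) ∧
      (∀ z, P.eval z = 0 → C ≤ ‖p.eval z‖) := by
  classical
  obtain ⟨ρ, hρ1, hρ2, hρ3⟩ := exists_rho hD
  have hρ0 : 0 < ρ := by linarith
  obtain ⟨b1, hb1, hb1'⟩ := exists_lower hD {z : ℂ | ‖P.eval z‖ = ρ}
    (isClosed_eq (Polynomial.continuous P).norm continuous_const)
    (fun z hz => by
      have : ‖P.eval z‖ = ρ := hz
      linarith) (fun z hz => hρ3 z hz)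
  obtain ⟨b0, hb0, hb0'⟩ := exists_lower hD {z : ℂ | P.eval z = 0}
    (isClosed_eq (Polynomial.continuous P) continuous_const)
    (fun z hz => by
      have : P.eval z = 0 := hz
      simp [this]) (fun z hz => hP z hz)
  obtain ⟨δ, hδ, hδ1, hδ2⟩ := exists_delta hD
  set D : ℕ := P.natDegree with hDdef
  have hDR : (1 : ℝ) ≤ D := by exact_mod_cast hD
  set β : ℝ := min (b0 / 2) b1 with hβ
  have hβ0 : 0 < β := by positivity
  have hβ1 : β ≤ b0 / 2 := min_le_left _ _
  have hβ2 : β ≤ b1 := min_le_right _ _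
  have hZcard : P.roots.toFinset.card = D := card_roots_simple hP
  -- constants
  set Cst : ℝ := D / β * (1 / δ + 4 * (k + 1 + D) * D ^ 2 / (δ ^ 2 * b1) + 1) with hCst
  have hCst0 : 0 < Cst := by positivity
  set A : ℝ := 4 * (k + 1 + D) / (b1 * (ρ * δ)) with hA
  obtain ⟨ν, hν, h1, h2, h3⟩ := large k hk (ε := 1 / (4 * Cst)) (by positivity) C A
  set M : ℕ := 2 * k * ν with hM
  have hM1 : 1 ≤ M := by
    have h4 : 1 * 1 * 1 ≤ 2 * k * ν := Nat.mul_le_mul (Nat.mul_le_mul (by norm_num) hk) hν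
    omega
  have hMR : (1 : ℝ) ≤ M := by exact_mod_cast hM1
  have hkR : (1 : ℝ) ≤ k := by exact_mod_cast hk
  have hνR : (1 : ℝ) ≤ ν := by exact_mod_cast hν
  obtain ⟨n, hn⟩ : ∃ n, M = n + 1 := ⟨M - 1, by omega⟩
  obtain ⟨ν', hν'⟩ : ∃ n, ν = n + 1 := ⟨ν - 1, by omega⟩
  have hnM : ((n : ℝ) + 1) = M := by
    rw [hn]
    push_cast
    ring
  set a : ℝ := Real.exp (Real.log M / (2 * M)) with ha
  have ha1 : 1 ≤ a := by
    rw [ha]
    apply Real.one_le_exp
    apply div_nonneg (Real.log_nonneg hMR) (by positivity)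
  have ha2 : a ≤ 2 := by
    have e1 : Real.log M ≤ M := (Real.log_le_sub_one_of_pos (by linarith)).trans (by linarith)
    have e2 : Real.log M / (2 * M) ≤ 1 / 2 := by
      rw [div_le_div_iff₀ (by positivity) (by norm_num)]
      linarith
    have e3 : a ≤ Real.exp (1 / 2) := Real.exp_le_exp.2 e2
    have e4 : Real.exp (1 / 2) ^ 2 ≤ 2 ^ 2 := by
      rw [← Real.exp_nat_mul]
      norm_num
      linarith [Real.exp_one_lt_d9]
    have e5 := le_of_sq_le_sq e4 (by norm_num)
    linarith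
  have haM : a ^ M = Real.sqrt M := by
    rw [ha, ← Real.exp_nat_mul]
    have e1 : (M : ℝ) * (Real.log M / (2 * M)) = Real.log (Real.sqrt M) := by
      rw [Real.log_sqrt (by linarith)]
      field_simp
    rw [e1, Real.exp_log (Real.sqrt_pos.2 (by linarith))]
  have haν : a ^ ν = Real.exp (Real.log M / (4 * k)) := by
    rw [ha, ← Real.exp_nat_mul]
    congr 1
    have e1 : (M : ℝ) = 2 * k * ν := by
      rw [hM]
      push_cast
      ring
    rw [e1]
    field_simp
    ring
  set Bp : ℂ[X] := Pi a M ρ P with hB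
  have hBroot : ∀ f, Bp.eval f = 0 → ‖P.eval f‖ = ρ := by
    intro f hf
    rw [hB, hn] at hf
    exact Pi_root ha1 hρ0 hf
  have hBder : ∀ f, Bp.eval f = 0 → M * b1 ≤ ρ * ‖(derivative Bp).eval f‖ := by
    intro f hf
    have e1 := hBroot f hf
    rw [hB, hn] at hf
    have e2 := Pi_deriv ha1 hρ0 hf
    rw [← hn, hnM, ← hB, div_le_iff₀ hρ0] at e2
    have e3 := hb1' f e1
    calc M * b1 ≤ M * ‖(derivative P).eval f‖ := by gcongr
      _ ≤ _ := by linarith
  have hBder2 : ∀ f, Bp.eval f = 0 → M * b1 ≤ ‖(derivative Bp).eval f‖ := by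
    intro f hf
    have e1 := hBder f hf
    have e2 : 0 ≤ ‖(derivative Bp).eval f‖ := norm_nonneg _
    nlinarith
  have hBsimple : Simple Bp := by
    intro f hf h0
    have e1 := hBder2 f hf
    rw [h0, norm_zero] at e1
    have : 0 < M * b1 := by positivity
    linarith
  have hBdeg : Bp.natDegree = 2 * M * D := by
    rw [hB, hn, natDegree_Pi ha1 n hρ0 P]
  have hB0 : ∀ z, P.eval z = 0 → ‖Bp.eval z‖ = Real.sqrt M / 2 := by
    intro z hz
    rw [hB, hn, Pi_zero hz, ← hn, norm_div, norm_pow, Complex.norm_real, Real.norm_eq_abs,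
      abs_of_pos (by linarith), haM]
    simp
  have hBbd : ∀ z, ‖P.eval z‖ ≤ 2 → ‖Bp.eval z‖ ≤ 704 ^ M := fun z hz =>
    Pi_bound2 ha1 ha2 M hρ1 P hz
  have hP0 : P ≠ 0 := by
    rintro rfl
    simp [hDdef] at hD
  have hBne : Bp ≠ 0 := by
    intro h
    rw [h] at hBdeg
    simp only [natDegree_zero] at hBdeg
    have : 0 < 2 * M * D := by positivity
    omega
  have hc0 : ((1000 : ℂ) ^ M) ≠ 0 := pow_ne_zero _ (by norm_num)
  set P' : ℂ[X] := Polynomial.C ((1000 : ℂ) ^ M) * (P * Bp) with hP'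
  have hevP' : ∀ z, P'.eval z = (1000 : ℂ) ^ M * (P.eval z * Bp.eval z) := by
    intro z
    simp [hP']
  have hnP' : ∀ z, ‖P'.eval z‖ = 1000 ^ M * (‖P.eval z‖ * ‖Bp.eval z‖) := by
    intro z
    rw [hevP', norm_mul, norm_mul, norm_pow]
    simp
  have hdP' : ∀ z, (derivative P').eval z = (1000 : ℂ) ^ M *
      ((derivative P).eval z * Bp.eval z + P.eval z * (derivative Bp).eval z) := by
    intro z
    rw [hP', derivative_C_mul, derivative_mul]
    simp only [eval_mul, eval_C, eval_add]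
  have hdegP' : P'.natDegree = (2 * M + 1) * D := by
    rw [hP', natDegree_C_mul hc0, natDegree_mul hP0 hBne, hBdeg]
    ring
  have hsq1 : 1 ≤ Real.sqrt M := by
    rw [Real.one_le_sqrt]
    exact hMR
  have hderlow : ∀ z, P'.eval z = 0 → 1000 ^ M * β ≤ ‖(derivative P').eval z‖ := by
    intro z hz
    rw [hevP'] at hz
    have e1 : P.eval z * Bp.eval z = 0 := by
      rcases mul_eq_zero.1 hz with h | h
      · exact absurd h hc0
      · exact h
    rw [hdP', norm_mul, norm_pow]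
    simp only [Complex.norm_ofNat]
    gcongr
    rcases mul_eq_zero.1 e1 with h | h
    · rw [h, zero_mul, add_zero, norm_mul, hB0 z h]
      have e2 := hb0' z h
      calc β ≤ b0 * (1 / 2) := by linarith
        _ ≤ ‖(derivative P).eval z‖ * (Real.sqrt M / 2) := by
          gcongr
    · rw [h, mul_zero, zero_add, norm_mul, hBroot z h]
      have e2 := hBder z h
      calc β ≤ 1 * b1 := by linarith
        _ ≤ M * b1 := by gcongr
        _ ≤ _ := e2
  have hP'simple : Simple P' := by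
    intro z hz h0
    have e1 := hderlow z hz
    rw [h0, norm_zero] at e1
    have : 0 < 1000 ^ M * β := by positivity
    linarith
  set η : ℝ := (2 * M + 1) * D / (1000 ^ M * β) with hη
  have hη0 : 0 < η := by positivity
  -- the master smallness inequality
  have hX : (2 * (M : ℝ) + 1) ^ 2 * (η * 704 ^ M) *
      (1 / δ + 4 * (k + 1 + D) * D ^ 2 / (δ ^ 2 * b1) + 1) ≤ 1 / 4 := by
    have e1 : (2 * (M : ℝ) + 1) ^ 2 * (η * 704 ^ M) *
      (1 / δ + 4 * (k + 1 + D) * D ^ 2 / (δ ^ 2 * b1) + 1)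
        = ((2 * (M : ℝ) + 1) ^ 3 * (704 / 1000) ^ M) * Cst := by
      rw [hη, hCst, div_pow]
      field_simp
    rw [e1]
    calc (2 * (M : ℝ) + 1) ^ 3 * (704 / 1000) ^ M * Cst ≤ 1 / (4 * Cst) * Cst := by gcongr
      _ = 1 / 4 := by field_simp
  have h704 : (1 : ℝ) ≤ 704 ^ M := one_le_pow₀ (by norm_num)
  have hX1 : η * 704 ^ M / δ ≤ 1 / 4 := by
    refine le_trans ?_ hX
    have e1 : (1 : ℝ) ≤ (2 * (M : ℝ) + 1) ^ 2 := one_le_pow₀ (by linarith)
    have e2 : 0 ≤ 4 * (k + 1 + D : ℝ) * D ^ 2 / (δ ^ 2 * b1) := by positivity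
    calc η * 704 ^ M / δ = 1 * (η * 704 ^ M) * (1 / δ) := by ring
      _ ≤ (2 * (M : ℝ) + 1) ^ 2 * (η * 704 ^ M) *
          (1 / δ + 4 * (k + 1 + D) * D ^ 2 / (δ ^ 2 * b1) + 1) := by
        gcongr
        linarith
  have hX2 : (2 * (M : ℝ) + 1) ^ 2 * (η * 704 ^ M) *
      (4 * (k + 1 + D) * D ^ 2 / (δ ^ 2 * b1)) ≤ 1 / 4 := by
    refine le_trans ?_ hX
    gcongr
    have e2 : 0 ≤ 1 / δ := by positivity
    linarith
  have hηδ : η ≤ δ := by
    rw [div_le_iff₀ hδ] at hX1
    calc η = η * 1 := by ring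
      _ ≤ η * 704 ^ M := by gcongr
      _ ≤ 1 / 4 * δ := hX1
      _ ≤ δ := by linarith
  refine ⟨P', 2 * M + 1, 2 * M * D, 2 * ν * D, Pi a ν ρ P, hdegP', by omega, hP'simple,
    ?_, ?_, ?_, ?_, ?_, ?_, ?_⟩
  · intro z hz
    rw [hevP', hz]
    ring
  · intro z hz
    by_contra hcon
    push Not at hcon
    have e1 : 1 / 2 ≤ ‖Bp.eval z‖ := by
      rw [hB, hn]
      exact Pi_lower ha1 hρ0 hρ2 hcon.le
    rw [hnP'] at hz
    have e2 : (1000 : ℝ) ^ 1 ≤ 1000 ^ M := pow_le_pow_right₀ (by norm_num) hM1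
    have e3 : (1000 : ℝ) ^ 1 * (1 * (1 / 2)) ≤ 1000 ^ M * (‖P.eval z‖ * ‖Bp.eval z‖) := by
      gcongr
    norm_num at e3
    linarith
  · intro z
    rw [hnP']
    set w := max 1 ‖P.eval z‖ with hw
    have e1 : 1 ≤ w := le_max_left _ _
    have e2 : ‖P.eval z‖ ≤ w := le_max_right _ _
    have e3 := Pi_bound ha1 ha2 M hρ1 P z
    rw [← hB, ← hw] at e3
    calc (1000 : ℝ) ^ M * (‖P.eval z‖ * ‖Bp.eval z‖) ≤ 1000 ^ M * (w * (176 ^ M * w ^ (2 * M))) := by
          gcongr
      _ = (1000 * 176) ^ M * w ^ (2 * M + 1) := by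
          rw [mul_pow]
          ring
      _ ≤ (1000 ^ 2) ^ M * w ^ (2 * M + 1) := by
          gcongr
          norm_num
      _ = 1000 ^ (2 * M) * w ^ (2 * M + 1) := by rw [← pow_mul]
      _ ≤ 1000 ^ (2 * M + 1) * w ^ (2 * M + 1) := by
          gcongr
          · norm_num
          · omega
      _ = (1000 * w) ^ (2 * M + 1) := by rw [mul_pow]
  · have e1 := natDegree_Pi_le a ν ρ P
    exact e1
  · have e1 : k + 1 ≤ 2 * (k * ν * D) := by
      have e2 : k * 1 * 1 ≤ k * ν * D := Nat.mul_le_mul (Nat.mul_le_mul (le_refl k) hν) hD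
      omega
    have e3 : 2 * M * D = 4 * (k * ν * D) := by
      rw [hM]
      ring
    have e4 : k * (2 * ν * D + 1) + 1 = 2 * (k * ν * D) + (k + 1) := by ring
    rw [e3, e4]
    omega
  · intro K hK1 hK2 m hm1 hm2 x hx
    have hcF : Bp.roots.toFinset.card = 2 * M * D := by
      rw [card_roots_simple hBsimple, hBdeg]
    have hmemF : ∀ f, f ∈ Bp.roots.toFinset ↔ Bp.eval f = 0 := by
      intro f
      rw [Multiset.mem_toFinset, mem_roots hBne]
      rfl
    have hmemZ : ∀ f, f ∈ P.roots.toFinset ↔ P.eval f = 0 := by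
      intro f
      rw [Multiset.mem_toFinset, mem_roots hP0]
      rfl
    have hbig : ∀ e ∈ Bp.roots.toFinset ∪ P.roots.toFinset,
        closedBall e (2 * δ) ⊆ {w : ℂ | ‖P.eval w‖ ≤ 2} := by
      intro e he
      apply hδ2
      rcases Finset.mem_union.1 he with h | h
      · rw [hBroot e ((hmemF e).1 h)]
        linarith
      · rw [(hmemZ e).1 h]
        simp
    have hqf : ∀ f ∈ Bp.roots.toFinset, ∀ w ∈ {w : ℂ | ‖P.eval w‖ ≤ 2},
        ‖(qf Bp f).eval w‖ ≤ 704 ^ M / δ := by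
      intro f hf w hw
      refine qf_bound hδ ((hmemF f).1 hf) ?_ (fun z hz => hBbd z hz) hw
      refine Set.Subset.trans (closedBall_subset_closedBall (by linarith))
        (hbig f (Finset.mem_union_left _ hf))
    have hmain := core (K := K) (K2 := {w : ℂ | ‖P.eval w‖ ≤ 2}) (F := Bp.roots.toFinset)
      (Z := P.roots.toFinset) (N := 2 * M * D) (k := k) (m := m) (δ := δ) (η := η)
      (Λ := 704 ^ M / (δ * b1)) (lam := 1 / (ρ * δ * b1 * Real.sqrt M) + 704 ^ M * η / (δ ^ 2 * b1))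
      (isCompact_sublevel hD 2)
      (by
        intro f hf
        apply hK2
        rw [hevP', (hmemF f).1 hf]
        ring) hcF (by positivity)
      (by
        intro z hz
        obtain ⟨e, he1, he2⟩ := lower_dist hP'simple
          (by
            rw [hdegP']
            positivity) (β := 1000 ^ M * β) (by positivity) hderlow z
        refine ⟨e, ?_, ?_⟩
        · rw [hevP'] at he1
          rw [Finset.mem_union, hmemF, hmemZ]
          rcases mul_eq_zero.1 he1 with h | h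
          · exact absurd h hc0
          · exact (mul_eq_zero.1 h).symm
        · refine he2.trans ?_
          rw [hη, hdegP']
          push_cast
          have e1 := hK1 z hz
          rw [div_le_div_iff_of_pos_right (by positivity)]
          have e2 : 0 ≤ (2 * (M : ℝ) + 1) * D := by positivity
          nlinarith)
      (fun f z => (qf Bp f).eval z / (derivative Bp).eval f)
      (by
        intro w hw z
        exact lagrange hBsimple (by rw [hBdeg]; exact hw) z)
      (by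
        intro f hf w hw
        rw [norm_div, ← div_div]
        have e1 := hqf f hf w hw
        have e2 := hBder2 f ((hmemF f).1 hf)
        have e3 : b1 ≤ M * b1 := by nlinarith
        have e4 : 0 < ‖(derivative Bp).eval f‖ := by linarith
        gcongr
        linarith)
      hbig hδ hη0 hηδ (by positivity) (by positivity)
      (by
        intro f hf z hz x hxz
        have hf0 := (hmemF f).1 hf
        have hz0 := (hmemZ z).1 hz
        have e2 := hBder2 f hf0
        have e4 : 0 < ‖(derivative Bp).eval f‖ := by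
          have : 0 < M * b1 := by positivity
          linarith
        -- distance from z to f
        have hdist : ρ * δ / 2 ≤ ‖z - f‖ := by
          by_contra hcon
          push Not at hcon
          have g1 : ‖f - z‖ ≤ δ := by
            rw [norm_sub_rev]
            nlinarith
          have g2 := lip_bound (p := P) (e := z) (x := f) (y := z) hδ (W := 2)
            (fun w hw => hbig z (Finset.mem_union_right _ hz) hw) g1 (by simpa using hδ.le)
          rw [hz0, sub_zero, hBroot f hf0, norm_sub_rev] at g2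
          have g3 : 2 / δ * ‖z - f‖ < 2 / δ * (ρ * δ / 2) := by gcongr
          have g4 : 2 / δ * (ρ * δ / 2) = ρ := by field_simp
          linarith
        have hqz : ‖(qf Bp f).eval z‖ ≤ Real.sqrt M / (ρ * δ) := by
          have g1 := eval_qf hf0 z
          have g2 : ‖z - f‖ * ‖(qf Bp f).eval z‖ = Real.sqrt M / 2 := by
            rw [← norm_mul, g1, hB0 z hz0]
          rw [le_div_iff₀ (by positivity)]
          have g3 : ρ * δ / 2 * ‖(qf Bp f).eval z‖ ≤ Real.sqrt M / 2 := by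
            rw [← g2]
            gcongr
          linarith
        have hlip : ‖(qf Bp f).eval x - (qf Bp f).eval z‖ ≤ 704 ^ M / δ / δ * η := by
          have g1 := lip_bound (p := qf Bp f) (e := z) (x := x) (y := z) hδ (W := 704 ^ M / δ)
            (fun w hw => hqf f hf w (hbig z (Finset.mem_union_right _ hz) hw))
            (hxz.trans hηδ) (by simpa using hδ.le)
          refine g1.trans ?_
          gcongr
        have hsum : ‖(qf Bp f).eval x‖ ≤ Real.sqrt M / (ρ * δ) + 704 ^ M / δ / δ * η := by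
          calc ‖(qf Bp f).eval x‖ = ‖(qf Bp f).eval z + ((qf Bp f).eval x - (qf Bp f).eval z)‖ := by
                ring_nf
            _ ≤ ‖(qf Bp f).eval z‖ + ‖(qf Bp f).eval x - (qf Bp f).eval z‖ := norm_add_le _ _
            _ ≤ _ := by gcongr
        rw [norm_div]
        calc ‖(qf Bp f).eval x‖ / ‖(derivative Bp).eval f‖
            ≤ (Real.sqrt M / (ρ * δ) + 704 ^ M / δ / δ * η) / (M * b1) := by gcongr
          _ = Real.sqrt M / (ρ * δ) / (M * b1) + (704 ^ M / δ / δ * η) / (M * b1) := by ring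
          _ ≤ 1 / (ρ * δ * b1 * Real.sqrt M) + 704 ^ M * η / (δ ^ 2 * b1) := by
            apply add_le_add
            · apply le_of_eq
              have g5 : Real.sqrt M * Real.sqrt M = M := Real.mul_self_sqrt (by linarith)
              have g6 : Real.sqrt M ≠ 0 := by linarith
              rw [div_div, div_eq_div_iff (by positivity) (by positivity)]
              calc Real.sqrt M * (ρ * δ * b1 * Real.sqrt M)
                  = ρ * δ * b1 * (Real.sqrt M * Real.sqrt M) := by ring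
                _ = 1 * (ρ * δ * (M * b1)) := by rw [g5]; ring
            · calc (704 ^ M / δ / δ * η) / (M * b1) ≤ (704 ^ M / δ / δ * η) / (1 * b1) := by
                    gcongr
                _ = 704 ^ M * η / (δ ^ 2 * b1) := by
                    field_simp)
      (by
        rw [hZcard, mul_add]
        have g1 : (k + 1 + D : ℝ) * (1 / (ρ * δ * b1 * Real.sqrt M)) ≤ 1 / 4 := by
          rw [hA] at h2
          rw [mul_one_div, div_le_div_iff₀ (by positivity) (by norm_num)]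
          have g2 : 4 * (k + 1 + D : ℝ) ≤ Real.sqrt M * (b1 * (ρ * δ)) := by
            rwa [div_le_iff₀ (by positivity)] at h2
          linarith
        have g3 : (k + 1 + D : ℝ) * (704 ^ M * η / (δ ^ 2 * b1)) ≤ 1 / 4 := by
          refine le_trans ?_ hX2
          have e1 : (1 : ℝ) ≤ (2 * (M : ℝ) + 1) ^ 2 := one_le_pow₀ (by linarith)
          have e2 : (1 : ℝ) ≤ (D : ℝ) ^ 2 := one_le_pow₀ hDR
          calc (k + 1 + D : ℝ) * (704 ^ M * η / (δ ^ 2 * b1))
              = 1 * (η * 704 ^ M) * (1 * (k + 1 + D) * 1 / (δ ^ 2 * b1)) := by ring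
            _ ≤ (2 * (M : ℝ) + 1) ^ 2 * (η * 704 ^ M) *
                (4 * (k + 1 + D) * D ^ 2 / (δ ^ 2 * b1)) := by
              gcongr
              norm_num
        linarith)
      (by
        push_cast
        rw [← div_lt_one hδ]
        have e1 : 2 * (2 * (M : ℝ) * D) ^ 2 * (704 ^ M / (δ * b1)) * η / δ
            ≤ (2 * (M : ℝ) + 1) ^ 2 * (η * 704 ^ M) *
                (4 * (k + 1 + D) * D ^ 2 / (δ ^ 2 * b1)) := by
          calc 2 * (2 * (M : ℝ) * D) ^ 2 * (704 ^ M / (δ * b1)) * η / δ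
              = (2 * (M : ℝ)) ^ 2 * (η * 704 ^ M) * (2 * 1 * D ^ 2 / (δ ^ 2 * b1)) := by
                field_simp
            _ ≤ _ := by
                gcongr
                · linarith
                · norm_num
                · have : (0 : ℝ) ≤ D := by positivity
                  linarith
        linarith)
      hm1 hm2 x hx.1 hx.2
    intro i
    obtain ⟨f, hf, hfx⟩ := hmain i
    have hf0 := (hmemF f).1 hf
    have e1 : ‖(Pi a ν ρ P).eval f‖ ≤ 1 := by
      rw [eval_Pi]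
      rw [hB, hn, eval_Pi] at hf0
      exact norm_Q_root a ha1 n hf0 ν
    have e2 := lip_bound (p := Pi a ν ρ P) (e := f) (x := x i) (y := f) hδ (W := 704 ^ ν)
      (fun w hw => Pi_bound2 ha1 ha2 ν hρ1 P (hbig f (Finset.mem_union_left _ hf) hw))
      (hfx.trans hηδ) (by simpa using hδ.le)
    have hνM : ν ≤ M := by
      rw [hM]
      calc ν = 1 * ν := by ring
        _ ≤ 2 * k * ν := Nat.mul_le_mul (by omega) (le_refl _)
    have e3 : (704 : ℝ) ^ ν / δ * ‖x i - f‖ ≤ 1 := by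
      calc (704 : ℝ) ^ ν / δ * ‖x i - f‖ ≤ 704 ^ M / δ * η := by
            gcongr
            norm_num
        _ = η * 704 ^ M / δ := by ring
        _ ≤ 1 := by linarith
    calc ‖(Pi a ν ρ P).eval (x i)‖
        = ‖(Pi a ν ρ P).eval f + ((Pi a ν ρ P).eval (x i) - (Pi a ν ρ P).eval f)‖ := by ring_nf
      _ ≤ ‖(Pi a ν ρ P).eval f‖ + ‖(Pi a ν ρ P).eval (x i) - (Pi a ν ρ P).eval f‖ :=
          norm_add_le _ _
      _ ≤ 2 := by linarith
  · intro z hz
    rw [hν', Pi_zero hz, ← hν', norm_div, norm_pow, Complex.norm_real, Real.norm_eq_abs,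
      abs_of_pos (by linarith), haν]
    simp only [Complex.norm_ofNat]
    linarith

end Pool.Agent.H940R3.Fek
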