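import Pool.Agent.H940R3.Fek.Seq

set_option autoImplicit false

namespace Pool.Agent.H940R3.Fek

open Polynomial Metric Filter Topology

/-- product over ordered pairs -/
noncomputable def G {m : ℕ} (v : Fin (m + 1) → ℂ) : ℝ :=
  ∏ i, ∏ j ∈ Finset.univ.erase i, ‖v i - v j‖

theorem norm_vdm_sq {m : ℕ} (v : Fin (m + 1) → ℂ) :
    ‖(Matrix.vandermonde v).det‖ ^ 2 = G v := by
  have h := Finset.prod_prod_Ioi_mul_eq_prod_prod_off_diag (fun j i : Fin (m + 1) => ‖v i - v j‖)
  rw [Matrix.det_vandermonde, norm_prod]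
  simp only [norm_prod]
  unfold G
  rw [← Finset.prod_pow]
  simp only [← Finset.prod_pow]
  have e1 : ∀ i j : Fin (m + 1), ‖v j - v i‖ ^ 2 = ‖v i - v j‖ * ‖v j - v i‖ := by
    intro i j
    rw [norm_sub_rev (v i) (v j)]
    ring
  simp only [e1]
  rw [h]
  apply Finset.prod_congr rfl
  intro i _
  rw [Finset.compl_singleton]

theorem G_split {m : ℕ} (v : Fin (m + 1) → ℂ) (i0 : Fin (m + 1)) :
    G v = (∏ j ∈ Finset.univ.erase i0, ‖v i0 - v j‖) ^ 2 *
      ∏ i ∈ Finset.univ.erase i0, ∏ j ∈ (Finset.univ.erase i).erase i0, ‖v i - v j‖ := by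
  unfold G
  rw [← Finset.mul_prod_erase Finset.univ _ (Finset.mem_univ i0)]
  have h1 : ∀ i ∈ Finset.univ.erase i0, (∏ j ∈ Finset.univ.erase i, ‖v i - v j‖)
      = ‖v i0 - v i‖ * ∏ j ∈ (Finset.univ.erase i).erase i0, ‖v i - v j‖ := by
    intro i hi
    have h2 : i0 ∈ Finset.univ.erase i :=
      Finset.mem_erase.2 ⟨(Finset.ne_of_mem_erase hi).symm, Finset.mem_univ _⟩
    rw [← Finset.mul_prod_erase (Finset.univ.erase i) _ h2, norm_sub_rev]
  rw [Finset.prod_congr rfl h1, Finset.prod_mul_distrib]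
  ring

theorem fek_of_max {K : Set ℂ} {m : ℕ} {x : Fin (m + 1) → ℂ} (hx : ∀ i, x i ∈ K)
    (h0 : (Matrix.vandermonde x).det ≠ 0)
    (hmax : ∀ y : Fin (m + 1) → ℂ, (∀ i, y i ∈ K) →
      ‖(Matrix.vandermonde y).det‖ ≤ ‖(Matrix.vandermonde x).det‖) : IsFek K x := by
  refine ⟨hx, ?_⟩
  intro i0 t ht
  have h1 := hmax (Function.update x i0 t) (by
    intro i
    by_cases h : i = i0
    · subst h
      simpa using ht
    · rw [Function.update_of_ne h]
      exact hx i)
  have h2 : G (Function.update x i0 t) ≤ G x := by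
    rw [← norm_vdm_sq, ← norm_vdm_sq]
    gcongr
  have h3 : 0 < G x := by
    rw [← norm_vdm_sq]
    have : 0 < ‖(Matrix.vandermonde x).det‖ := norm_pos_iff.2 h0
    positivity
  rw [G_split (Function.update x i0 t) i0] at h2
  rw [G_split x i0] at h2 h3
  set R := ∏ i ∈ Finset.univ.erase i0, ∏ j ∈ (Finset.univ.erase i).erase i0, ‖x i - x j‖ with hR
  have h4 : ∏ i ∈ Finset.univ.erase i0, ∏ j ∈ (Finset.univ.erase i).erase i0,
      ‖Function.update x i0 t i - Function.update x i0 t j‖ = R := by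
    rw [hR]
    apply Finset.prod_congr rfl
    intro i hi
    apply Finset.prod_congr rfl
    intro j hj
    rw [Function.update_of_ne (Finset.ne_of_mem_erase hi),
      Function.update_of_ne (Finset.ne_of_mem_erase hj)]
  have h5 : ∏ j ∈ Finset.univ.erase i0, ‖Function.update x i0 t i0 - Function.update x i0 t j‖
      = ‖(om x i0).eval t‖ := by
    rw [norm_om]
    apply Finset.prod_congr rfl
    intro j hj
    rw [Function.update_self, Function.update_of_ne (Finset.ne_of_mem_erase hj)]
  rw [h4, h5, ← norm_om x i0 (x i0)] at h2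
  rw [← norm_om x i0 (x i0)] at h3
  have hRpos : 0 < R := by
    rcases lt_or_ge 0 R with h | h
    · exact h
    · exfalso
      have : ‖(om x i0).eval (x i0)‖ ^ 2 * R ≤ 0 :=
        mul_nonpos_of_nonneg_of_nonpos (by positivity) h
      linarith
  have h6 : ‖(om x i0).eval t‖ ^ 2 ≤ ‖(om x i0).eval (x i0)‖ ^ 2 :=
    le_of_mul_le_mul_right h2 hRpos
  exact le_of_sq_le_sq h6 (norm_nonneg _)

/-- the index type of the frozen statement in dimension one -/
abbrev Idx (N : ℕ) : Type := {α : Fin 1 → ℕ // α ∈ Finset.filter (fun α : Fin 1 → ℕ => ∑ i, α i ≤ N)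
              (Fintype.piFinset fun _ : Fin 1 => Finset.range (N + 1))}

/-- the index equivalence -/
def eIdx (N : ℕ) : Fin (N + 1) ≃ Idx N where
  toFun k := ⟨fun _ => k.1, by
    rw [Finset.mem_filter, Fintype.mem_piFinset]
    refine ⟨fun _ => Finset.mem_range.2 k.2, ?_⟩
    simp
    omega⟩
  invFun a := ⟨a.1 0, by
    have h := a.2
    rw [Finset.mem_filter, Fintype.mem_piFinset] at h
    exact Finset.mem_range.1 (h.1 0)⟩
  left_inv k := rfl
  right_inv a := by
    apply Subtype.ext
    funext i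
    have : i = 0 := Subsingleton.elim _ _
    subst this
    rfl

theorem det_eq {N : ℕ} (y : Idx N → (Fin 1 → ℂ)) :
    (Matrix.of (fun a b : Idx N => ∏ i, y a i ^ (b.1 i))).det
      = (Matrix.vandermonde (fun k : Fin (N + 1) => y (eIdx N k) 0)).det := by
  rw [← Matrix.det_submatrix_equiv_self (eIdx N)]
  congr 1
  ext a b
  simp [Matrix.vandermonde, eIdx]

/-- restriction of a multivariate polynomial -/
noncomputable def uni (p : MvPolynomial (Fin 1) ℂ) : ℂ[X] :=
  MvPolynomial.aeval (fun _ : Fin 1 => (X : ℂ[X])) p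

theorem eval_uni (p : MvPolynomial (Fin 1) ℂ) (z : Fin 1 → ℂ) :
    (uni p).eval (z 0) = MvPolynomial.eval z p := by
  unfold uni
  induction p using MvPolynomial.induction_on with
  | C a => simp
  | add p q hp hq => simp [hp, hq]
  | mul_X p i hp =>
    have : i = 0 := Subsingleton.elim _ _
    subst this
    simp [hp]

theorem natDegree_uni (p : MvPolynomial (Fin 1) ℂ) : (uni p).natDegree ≤ p.totalDegree := by
  unfold uni
  rw [MvPolynomial.aeval_def, MvPolynomial.eval₂_eq']
  apply natDegree_sum_le_of_forall_le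
  intro d hd
  refine natDegree_mul_le.trans ?_
  have h1 := MvPolynomial.le_totalDegree hd
  have h2 : (d.sum fun _ e => e) = d 0 := by
    rw [Finsupp.sum_fintype _ _ (fun _ => rfl)]
    simp
  rw [h2] at h1
  have h3 : (algebraMap ℂ ℂ[X] (MvPolynomial.coeff d p)).natDegree = 0 := natDegree_C _
  rw [h3, zero_add]
  simpa using h1

/-- a polynomial as a multivariate one -/
noncomputable def multi (p : ℂ[X]) : MvPolynomial (Fin 1) ℂ :=
  Polynomial.aeval (MvPolynomial.X 0 : MvPolynomial (Fin 1) ℂ) p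

theorem eval_multi (p : ℂ[X]) (z : Fin 1 → ℂ) :
    MvPolynomial.eval z (multi p) = p.eval (z 0) := by
  unfold multi
  induction p using Polynomial.induction_on' with
  | add p q hp hq => simp [hp, hq]
  | monomial n a => simp

theorem uni_multi (p : ℂ[X]) : uni (multi p) = p := by
  apply Polynomial.funext
  intro z
  have h1 := eval_uni (multi p) (fun _ => z)
  rw [h1, eval_multi]

theorem totalDegree_multi_le (p : ℂ[X]) : (multi p).totalDegree ≤ p.natDegree := by
  unfold multi
  rw [Polynomial.aeval_eq_sum_range]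
  apply MvPolynomial.totalDegree_finsetSum_le
  intro i hi
  refine (MvPolynomial.totalDegree_smul_le _ _).trans ?_
  rw [MvPolynomial.totalDegree_X_pow]
  have := Finset.mem_range.1 hi
  omega

theorem totalDegree_multi (p : ℂ[X]) : (multi p).totalDegree = p.natDegree := by
  apply le_antisymm (totalDegree_multi_le p)
  have := natDegree_uni (multi p)
  rwa [uni_multi] at this

end Pool.Agent.H940R3.Fek
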